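import Pool.Agent.V8H44.ML.Defs

/-!
Existence of an optimal rooted spanning tree (helper63, after the plan of helper44).
-/

namespace Pool.Agent.V8H44.ML

open SimpleGraph Pool.Agent.Helper6W

namespace Tree

variable {V : Type} [Fintype V] [DecidableEq V]

lemma exists_parent {G : SimpleGraph V} (hc : G.Connected) (r v : V) :
    ∃ u, v ≠ r → G.Adj v u ∧ G.dist v r = G.dist u r + 1 := by
  by_cases hv : v = r
  · exact ⟨v, fun h => absurd hv h⟩
  · obtain ⟨p, hp⟩ := hc.exists_walk_length_eq_dist v r
    cases p with
    | nil => exact absurd rfl hv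
    | cons h q =>
      rename_i u
      refine ⟨u, fun _ => ⟨h, ?_⟩⟩
      rw [Walk.length_cons] at hp
      have h1 : G.dist u r ≤ q.length := SimpleGraph.dist_le q
      have h2 : G.dist v r ≤ G.dist v u + G.dist u r := hc.dist_triangle
      have h3 : G.dist v u = 1 := SimpleGraph.dist_eq_one_iff_adj.mpr h
      omega

lemma mem_ch {r : V} {par : V → V} {v x : V} : x ∈ ch r par v ↔ x ≠ r ∧ par x = v := by
  simp [ch]

lemma leaf_iff {r : V} {par : V → V} {v : V} :
    Leaf r par v ↔ v ≠ r ∧ ∀ x, x ≠ r → par x ≠ v := by
  unfold Leaf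
  rw [Finset.eq_empty_iff_forall_notMem]
  simp only [mem_ch]
  constructor
  · rintro ⟨h1, h2⟩
    exact ⟨h1, fun x hx hp => h2 x ⟨hx, hp⟩⟩
  · rintro ⟨h1, h2⟩
    exact ⟨h1, fun x hx => h2 x hx.1 hx.2⟩

/-- Hang the leaf `l` below its neighbour `w`. -/
lemma switch {G : SimpleGraph V} {r : V} {par : V → V} {dep : V → ℕ} (h : RTree G r par dep)
    {l w : V} (hl : Leaf r par l) (hlw : G.Adj l w) :
    RTree G r (Function.update par l w) (Function.update dep l (dep w + 1)) := by
  have hl' := leaf_iff.1 hl
  refine ⟨fun v hv => ?_, fun v hv => ?_⟩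
  · by_cases hvl : v = l
    · subst hvl
      rw [Function.update_self]
      exact hlw
    · rw [Function.update_of_ne hvl]
      exact h.adj v hv
  · by_cases hvl : v = l
    · subst hvl
      rw [Function.update_self, Function.update_self, Function.update_of_ne hlw.ne.symm]
    · rw [Function.update_of_ne hvl, Function.update_of_ne hvl,
        Function.update_of_ne (hl'.2 v hv)]
      exact h.dep v hv

/-- The weight which is maximised. -/
def Wt (G : SimpleGraph V) [DecidableRel G.Adj] (r : V) (par : V → V) (v : V) : ℕ :=
  if Leaf r par v then 2 * Fintype.card V - G.degree v else 0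

/-- If the root has only one child and this is a leaf, there are only two vertices. -/
lemma root_child {G : SimpleGraph V} {r : V} {par : V → V} {dep : V → ℕ} (h : RTree G r par dep)
    {l : V} (hl : Leaf r par l) (hc : ch r par r = {l}) : Fintype.card V ≤ 2 := by
  have hl' := leaf_iff.1 hl
  have key : ∀ n : ℕ, ∀ v : V, dep v = n → v ≠ r → v = l := by
    intro n
    induction n with
    | zero =>
      intro v hv hvr
      have := h.dep v hvr
      omega
    | succ n ih =>
      intro v hv hvr
      have h1 := h.dep v hvr
      by_cases hp : par v = r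
      · have h2 : v ∈ ch r par r := mem_ch.2 ⟨hvr, hp⟩
        rw [hc] at h2
        exact Finset.mem_singleton.1 h2
      · exact absurd (ih (par v) (by omega) hp) (hl'.2 v hvr)
  have hsub : (Finset.univ : Finset V) ⊆ {r, l} := by
    intro v _
    by_cases hvr : v = r
    · simp [hvr]
    · simp [key _ v rfl hvr]
  calc Fintype.card V = (Finset.univ : Finset V).card := rfl
    _ ≤ ({r, l} : Finset V).card := Finset.card_le_card hsub
    _ ≤ 2 := Finset.card_le_two

end Tree

open Tree in
theorem stmTree : StmTree := by
  intro V _ _ G _ hc h3 r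
  choose par₀ hpar₀ using exists_parent hc r
  let S : Set (V → V) := {par | ∃ dep, RTree G r par dep}
  have hS : S.Nonempty := ⟨par₀, fun v => G.dist v r,
    ⟨fun v hv => (hpar₀ v hv).1, fun v hv => (hpar₀ v hv).2⟩⟩
  obtain ⟨par, ⟨dep, ht⟩, hmax⟩ :=
    Set.exists_max_image S (fun par => ∑ v, Wt G r par v) (Set.toFinite S) hS
  refine ⟨par, dep, ht, ?_⟩
  intro l hl hch w hlw hwp
  have hl' := leaf_iff.1 hl
  have hpr : par l ≠ r := by
    intro hp
    rw [hp] at hch
    have := root_child ht hl hch
    omega
  have hlp : l ≠ par l := (ht.adj l hl'.1).ne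
  have hwl : w ≠ l := hlw.ne.symm
  set par' := Function.update par l w with hpar'
  have hmem : par' ∈ S := ⟨_, switch ht hl hlw⟩
  have hle : ∑ v, Wt G r par' v ≤ ∑ v, Wt G r par v := hmax par' hmem
  -- the leaves of the new tree
  have hpp : Leaf r par' (par l) := by
    rw [leaf_iff]
    refine ⟨hpr, fun x hx hxp => ?_⟩
    by_cases hxl : x = l
    · subst hxl
      rw [hpar', Function.update_self] at hxp
      exact hwp hxp
    · rw [hpar', Function.update_of_ne hxl] at hxp
      have h2 : x ∈ ch r par (par l) := mem_ch.2 ⟨hx, hxp⟩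
      rw [hch] at h2
      exact hxl (Finset.mem_singleton.1 h2)
  have hpl : ¬ Leaf r par (par l) := by
    rw [leaf_iff]
    rintro ⟨_, h2⟩
    exact h2 l hl'.1 rfl
  have hw' : ¬ Leaf r par' w := by
    rw [leaf_iff]
    rintro ⟨_, h2⟩
    refine h2 l hl'.1 ?_
    rw [hpar', Function.update_self]
  have hoth : ∀ v, v ≠ w → v ≠ par l → Wt G r par' v = Wt G r par v := by
    intro v hvw hvp
    have : Leaf r par' v ↔ Leaf r par v := by
      rw [leaf_iff, leaf_iff]
      refine and_congr_right fun _ => ?_
      constructor
      · intro h x hx hxv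
        by_cases hxl : x = l
        · subst hxl
          exact hvp hxv.symm
        · refine h x hx ?_
          rw [hpar', Function.update_of_ne hxl]
          exact hxv
      · intro h x hx hxv
        by_cases hxl : x = l
        · subst hxl
          rw [hpar', Function.update_self] at hxv
          exact hvw hxv.symm
        · rw [hpar', Function.update_of_ne hxl] at hxv
          exact h x hx hxv
    unfold Wt
    simp only [this]
  have split : ∀ f : V → ℕ, ∑ v, f v = f w + (f (par l) +
      ∑ v ∈ (Finset.univ.erase w).erase (par l), f v) := by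
    intro f
    rw [Finset.add_sum_erase _ _ (Finset.mem_erase.2 ⟨hwp.symm, Finset.mem_univ _⟩),
      Finset.add_sum_erase _ _ (Finset.mem_univ _)]
  have hrest : ∑ v ∈ (Finset.univ.erase w).erase (par l), Wt G r par' v =
      ∑ v ∈ (Finset.univ.erase w).erase (par l), Wt G r par v := by
    refine Finset.sum_congr rfl fun v hv => ?_
    rw [Finset.mem_erase, Finset.mem_erase] at hv
    exact hoth v hv.2.1 hv.1
  rw [split, split (Wt G r par), hrest] at hle
  have e1 : Wt G r par' w = 0 := if_neg hw'
  have e2 : Wt G r par' (par l) = 2 * Fintype.card V - G.degree (par l) := if_pos hpp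
  have e3 : Wt G r par (par l) = 0 := if_neg hpl
  have d1 : G.degree (par l) < Fintype.card V := G.degree_lt_card_verts (par l)
  have d2 : G.degree w < Fintype.card V := G.degree_lt_card_verts w
  rw [e1, e2, e3] at hle
  by_cases hw : Leaf r par w
  · refine ⟨hw, ?_⟩
    have e4 : Wt G r par w = 2 * Fintype.card V - G.degree w := if_pos hw
    rw [e4] at hle
    omega
  · exfalso
    have e4 : Wt G r par w = 0 := if_neg hw
    rw [e4] at hle
    omega

end Pool.Agent.V8H44.ML
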