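import Pool.Agent.V8H44.ML.Defs

/-!
Closed walks with prescribed multiplicities on the edges of a rooted spanning tree, where the
edges to the leaves may have multiplicity zero.
-/

namespace Pool.Agent.V8H44.ML

open SimpleGraph Pool.Agent.Helper6W

variable {V : Type} [Fintype V] [DecidableEq V]

lemma walk_aux2 (G : SimpleGraph V) [DecidableRel G.Adj]
    {x y : V} (t : Sym2 V → ℕ)
    (hreach : ∀ S : V → Prop, S x → (∀ a b, S a → G.Adj a b → 0 < t s(a, b) → S b) →
      ∀ a b, G.Adj a b → 0 < t s(a, b) → S a) :
    ∀ (n : ℕ) (w : G.Walk x y),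
      (∀ e ∈ G.edgeSet, w.edges.count e ≤ t e ∧ Even (t e - w.edges.count e)) →
      (∑ e ∈ G.edgeFinset, (t e - w.edges.count e)) = n →
      ∃ w' : G.Walk x y, ∀ e ∈ G.edgeSet, w'.edges.count e = t e := by
  intro n
  induction n using Nat.strong_induction_on with
  | _ n ih =>
    intro w hw hn
    by_cases hall : ∀ e ∈ G.edgeSet, w.edges.count e = t e
    · exact ⟨w, hall⟩
    · push Not at hall
      obtain ⟨e0, he0, hne0⟩ := hall
      have key : ∃ a b, a ∈ w.support ∧ G.Adj a b ∧ w.edges.count s(a,b) < t s(a,b) := by
        by_contra hcon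
        push Not at hcon
        have hallv : ∀ a b, G.Adj a b → 0 < t s(a, b) → a ∈ w.support := by
          intro a b hab hpos
          refine hreach (fun v => v ∈ w.support) (Walk.start_mem_support w) ?_ a b hab hpos
          intro a b ha hab h2
          have h1 := hcon a b ha hab
          have h3 : 0 < w.edges.count s(a,b) := by omega
          have h4 : s(a,b) ∈ w.edges := List.count_pos_iff.mp h3
          exact w.snd_mem_support_of_mem_edges h4
        induction e0 using Sym2.ind with
        | _ a b =>
          have hab : G.Adj a b := by simpa using he0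
          have h2 := (hw s(a,b) he0).1
          have hpos : 0 < t s(a, b) := by
            rcases Nat.eq_zero_or_pos (t s(a, b)) with h0 | h0
            · exact absurd (by omega) hne0
            · exact h0
          have h1 := hcon a b (hallv a b hab hpos) hab
          exact hne0 (le_antisymm h2 h1)
      obtain ⟨a, b, ha, hab, hlt⟩ := key
      have hcount : ∀ e, (((w.takeUntil a ha).append
          (Walk.cons hab (Walk.cons hab.symm (w.dropUntil a ha)))).edges).count e
          = w.edges.count e + (if e = s(a,b) then 2 else 0) := by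
        intro e
        have hspec : w.edges.count e = (w.takeUntil a ha).edges.count e
            + (w.dropUntil a ha).edges.count e := by
          conv_lhs => rw [← w.take_spec ha]
          rw [Walk.edges_append, List.count_append]
        rw [Walk.edges_append, Walk.edges_cons, Walk.edges_cons, List.count_append,
          List.count_cons, List.count_cons, hspec]
        have hsw : s(b, a) = s(a, b) := Sym2.eq_swap
        rw [hsw]
        by_cases he : e = s(a,b)
        · subst he; simp; omega
        · have he' : ¬ (s(a,b) = e) := fun h => he h.symm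
          simp [he, he']
      have hmem : s(a,b) ∈ G.edgeSet := by simpa using hab
      obtain ⟨hle, hev⟩ := hw _ hmem
      have h2 : w.edges.count s(a,b) + 2 ≤ t s(a,b) := by
        obtain ⟨r, hr⟩ := hev
        omega
      refine ih _ ?_ ((w.takeUntil a ha).append
          (Walk.cons hab (Walk.cons hab.symm (w.dropUntil a ha)))) ?_ rfl
      · rw [← hn]
        refine Finset.sum_lt_sum ?_ ⟨s(a,b), by simpa using hab, ?_⟩
        · intro e _
          rw [hcount e]
          omega
        · rw [hcount]
          simp
          omega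
      · intro e he
        rw [hcount e]
        obtain ⟨h1, r, hr⟩ := hw e he
        by_cases hE : e = s(a,b)
        · subst hE
          rw [if_pos rfl]
          refine ⟨h2, ⟨r - 1, ?_⟩⟩
          omega
        · rw [if_neg hE]
          exact ⟨by omega, ⟨r, by omega⟩⟩

/-- A walk can be lengthened by detours until it traverses every edge `e` exactly `t e` times, if
the edges with `t e > 0` are all reached from its start and the parities are right. -/
lemma exists_walk2 (G : SimpleGraph V) [DecidableRel G.Adj]
    {x y : V} (t : Sym2 V → ℕ)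
    (hreach : ∀ S : V → Prop, S x → (∀ a b, S a → G.Adj a b → 0 < t s(a, b) → S b) →
      ∀ a b, G.Adj a b → 0 < t s(a, b) → S a)
    (w : G.Walk x y)
    (hw : ∀ e ∈ G.edgeSet, w.edges.count e ≤ t e ∧ Even (t e - w.edges.count e)) :
    ∃ w' : G.Walk x y, (∀ e ∈ G.edgeSet, w'.edges.count e = t e) ∧
      w'.length = ∑ e ∈ G.edgeFinset, t e := by
  obtain ⟨w', hw'⟩ := walk_aux2 G t hreach _ w hw rfl
  refine ⟨w', hw', ?_⟩
  have h1 : ∑ e ∈ G.edgeFinset, (w'.edges : Multiset (Sym2 V)).count e
      = Multiset.card (w'.edges : Multiset (Sym2 V)) := by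
    apply Multiset.sum_count_eq_card
    intro e he
    simp only [Multiset.mem_coe] at he
    simpa using w'.edges_subset_edgeSet he
  have h2 : w'.length = ∑ e ∈ G.edgeFinset, w'.edges.count e := by
    simp only [Multiset.coe_count, Multiset.coe_card, Walk.length_edges] at h1
    exact h1.symm
  rw [h2]
  refine Finset.sum_congr rfl ?_
  intro e he
  exact hw' e (by simpa using he)

theorem stmWalk : StmWalk := by
  intro V _ _ G _ r par dep s hT hs1 hs2
  let t : Sym2 V → ℕ := fun e => 2 * ∑ x ∈ Finset.univ.erase r, (if e = s(x, par x) then s x else 0)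
  have htpos : ∀ x, x ≠ r → 1 ≤ s x → 0 < t s(x, par x) := by
    intro x hx hsx
    have h1 : s x ≤ ∑ y ∈ Finset.univ.erase r, (if s(x, par x) = s(y, par y) then s y else 0) := by
      have h2 := Finset.single_le_sum (f := fun y => if s(x, par x) = s(y, par y) then s y else 0)
        (s := Finset.univ.erase r) (fun _ _ => Nat.zero_le _)
        (Finset.mem_erase.mpr ⟨hx, Finset.mem_univ x⟩)
      simpa using h2
    show 0 < 2 * _
    omega
  have htex : ∀ a b, 0 < t s(a, b) → ∃ x, x ≠ r ∧ 1 ≤ s x ∧ s(a, b) = s(x, par x) := by
    intro a b h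
    have h' : 0 < ∑ x ∈ Finset.univ.erase r, (if s(a, b) = s(x, par x) then s x else 0) := by
      have : 0 < 2 * ∑ x ∈ Finset.univ.erase r, (if s(a, b) = s(x, par x) then s x else 0) := h
      omega
    obtain ⟨x, hx, hx'⟩ := Finset.exists_ne_zero_of_sum_ne_zero (Nat.pos_iff_ne_zero.mp h')
    have hxr := Finset.ne_of_mem_erase hx
    by_cases he : s(a, b) = s(x, par x)
    · rw [if_pos he] at hx'
      exact ⟨x, hxr, Nat.one_le_iff_ne_zero.mpr hx', he⟩
    · rw [if_neg he] at hx'
      exact absurd rfl hx'
  have hreach0 : ∀ S : V → Prop, S r → (∀ a b, S a → G.Adj a b → 0 < t s(a, b) → S b) →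
      ∀ (n : ℕ) (v : V), dep v = n → v ≠ r → 1 ≤ s v → S v ∧ S (par v) := by
    intro S hS hcl n
    induction n using Nat.strong_induction_on with
    | _ n ih =>
      intro v hv hvr hsv
      have hd := hT.dep v hvr
      have hSp : S (par v) := by
        by_cases hp : par v = r
        · rw [hp]; exact hS
        · have hnl : ¬ Leaf r par (par v) := by
            rintro ⟨_, h⟩
            have : v ∈ ch r par (par v) := by
              simp [ch, hvr]
            rw [h] at this
            simp at this
          exact (ih (dep (par v)) (by omega) (par v) rfl hp (hs1 _ hp hnl)).1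
      refine ⟨hcl (par v) v hSp (hT.adj v hvr).symm ?_, hSp⟩
      rw [Sym2.eq_swap]
      exact htpos v hvr hsv
  have hreach : ∀ S : V → Prop, S r → (∀ a b, S a → G.Adj a b → 0 < t s(a, b) → S b) →
      ∀ a b, G.Adj a b → 0 < t s(a, b) → S a := by
    intro S hS hcl a b _ hpos
    obtain ⟨x, hxr, hsx, he⟩ := htex a b hpos
    have h := hreach0 S hS hcl _ x rfl hxr hsx
    rw [Sym2.eq_iff] at he
    rcases he with ⟨h1, _⟩ | ⟨h1, _⟩
    · rw [h1]; exact h.1
    · rw [h1]; exact h.2
  obtain ⟨w, hw, hlen⟩ := exists_walk2 G t hreach (Walk.nil : G.Walk r r)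
    (fun e _ => ⟨by simp, by
      rw [Walk.edges_nil, List.count_nil, Nat.sub_zero]
      exact even_two_mul _⟩)
  have hdeg : ∀ v, degPlus G w v = DD G r par s v := by
    intro v
    unfold degPlus DD
    have h1 : ∀ u ∈ G.neighborFinset v, 1 + w.edges.count s(v, u)
        = 1 + 2 * ∑ x ∈ Finset.univ.erase r, s x * (if s(v, u) = s(x, par x) then 1 else 0) := by
      intro u hu
      have hvu : G.Adj v u := by simpa using hu
      rw [hw s(v, u) (by simpa using hvu)]
      simp only [t]
      congr 2
      refine Finset.sum_congr rfl ?_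
      intro x _
      split_ifs <;> simp
    rw [Finset.sum_congr rfl h1, Finset.sum_add_distrib, ← Finset.card_eq_sum_ones,
      G.card_neighborFinset_eq_degree, ← Finset.mul_sum, Finset.sum_comm]
    congr 2
    have h2 : ∀ x ∈ Finset.univ.erase r,
        ∑ u ∈ G.neighborFinset v, s x * (if s(v, u) = s(x, par x) then 1 else 0)
        = (if v = x then s x else 0) + (if par x = v then s x else 0) := by
      intro x hx
      rw [← Finset.mul_sum, edge_sum G (hT.adj x (Finset.ne_of_mem_erase hx)) v, mul_add]
      congr 1
      · split_ifs <;> simp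
      · by_cases h : v = par x
        · rw [if_pos h, if_pos h.symm, mul_one]
        · rw [if_neg h, if_neg (fun h' => h h'.symm), mul_zero]
    rw [Finset.sum_congr rfl h2, Finset.sum_add_distrib]
    congr 1
    · rw [Finset.sum_ite_eq]
      by_cases h : v = r
      · simp [h]
      · simp [h]
    · rw [← Finset.sum_filter]
      refine Finset.sum_congr ?_ (fun _ _ => rfl)
      ext x
      simp
  have hlen2 : w.length = 2 * ∑ x ∈ Finset.univ.erase r, s x := by
    rw [hlen]
    simp only [t]
    rw [← Finset.mul_sum, Finset.sum_comm]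
    congr 1
    refine Finset.sum_congr rfl ?_
    intro x hx
    rw [Finset.sum_ite_eq', if_pos]
    simpa using hT.adj x (Finset.ne_of_mem_erase hx)
  refine ⟨w, ?_, hlen2⟩
  intro u v huv
  rw [hdeg u, hdeg v]
  exact hs2 u v huv

end Pool.Agent.V8H44.ML
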