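import Pool.Agent.V8H44.ML.Str

/-!
Counting: non-tree edges, degrees, shares.
-/

namespace Pool.Agent.V8H44.ML

open SimpleGraph Pool.Agent.Helper6W

variable {V : Type} [Fintype V] [DecidableEq V]

/-- The graph of the non-tree edges. -/
def HG (G : SimpleGraph V) (r : V) (par : V → V) : SimpleGraph V where
  Adj v w := G.Adj v w ∧ ¬ (w ≠ r ∧ par w = v) ∧ ¬ (v ≠ r ∧ par v = w)
  symm := ⟨fun _ _ h => ⟨h.1.symm, h.2.2, h.2.1⟩⟩
  loopless := ⟨fun _ h => h.1.ne rfl⟩

instance (G : SimpleGraph V) [DecidableRel G.Adj] (r : V) (par : V → V) :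
    DecidableRel (HG G r par).Adj := fun v w =>
  inferInstanceAs (Decidable (G.Adj v w ∧ ¬ (w ≠ r ∧ par w = v) ∧ ¬ (v ≠ r ∧ par v = w)))

/-- A special leaf. -/
def Sp (G : SimpleGraph V) [DecidableRel G.Adj] (r : V) (par : V → V) (l : V) : Prop :=
  l ≠ r ∧ ch r par l = ∅ ∧ ch r par (par l) = {l} ∧ par l ≠ r ∧
    G.degree (par l) + 2 ≤ G.degree l ∧ G.degree l ≤ 6

instance (G : SimpleGraph V) [DecidableRel G.Adj] (r : V) (par : V → V) (l : V) :
    Decidable (Sp G r par l) := inferInstanceAs (Decidable (_ ∧ _))

/-- The share of `v` in the non-tree edge `vw`. -/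
def shr (G : SimpleGraph V) [DecidableRel G.Adj] (r : V) (par : V → V) (v w : V) : ℤ :=
  if Sp G r par v then 2 else if Sp G r par w then 0 else 1

/-- The total share of `v`. -/
def sh (G : SimpleGraph V) [DecidableRel G.Adj] (r : V) (par : V → V) (v : V) : ℤ :=
  ∑ w ∈ (HG G r par).neighborFinset v, shr G r par v w

lemma shr_nonneg (G : SimpleGraph V) [DecidableRel G.Adj] (r : V) (par : V → V) (v w : V) :
    0 ≤ shr G r par v w := by
  unfold shr; split_ifs <;> norm_num

lemma sh_nonneg (G : SimpleGraph V) [DecidableRel G.Adj] (r : V) (par : V → V) (v : V) :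
    0 ≤ sh G r par v := Finset.sum_nonneg (fun _ _ => shr_nonneg G r par _ _)

namespace Setup

variable {G : SimpleGraph V} [DecidableRel G.Adj] {r : V} {par : V → V} {dep key s : V → ℕ}
  (S : Setup G r par dep key s)

include S

lemma degree_eq (v : V) : G.degree v = (HG G r par).degree v + (ch r par v).card +
    (if v = r then 0 else 1) := by
  have h1 : G.neighborFinset v = (HG G r par).neighborFinset v ∪ (ch r par v ∪
      (if v = r then ∅ else {par v})) := by
    ext w
    rw [Finset.mem_union, Finset.mem_union, mem_neighborFinset, mem_neighborFinset, mem_ch]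
    have hv : w ∈ (if v = r then (∅ : Finset V) else {par v}) ↔ v ≠ r ∧ par v = w := by
      by_cases h : v = r
      · simp [h]
      · simp [h, eq_comm]
    rw [hv]
    constructor
    · intro h
      by_cases h2 : w ≠ r ∧ par w = v
      · exact Or.inr (Or.inl h2)
      · by_cases h3 : v ≠ r ∧ par v = w
        · exact Or.inr (Or.inr h3)
        · exact Or.inl ⟨h, h2, h3⟩
    · rintro (h | h | h)
      · exact h.1
      · have := S.tree.adj w h.1
        rw [h.2] at this
        exact this.symm
      · have := S.tree.adj v h.1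
        rw [h.2] at this
        exact this
  have h2 : Disjoint (ch r par v) (if v = r then (∅ : Finset V) else {par v}) := by
    by_cases h : v = r
    · simp [h]
    · rw [if_neg h, Finset.disjoint_singleton_right, mem_ch]
      rintro ⟨h1, h2⟩
      have e1 := S.tree.dep v h
      have e2 := S.tree.dep _ h1
      rw [h2] at e2
      omega
  have h3 : Disjoint ((HG G r par).neighborFinset v) (ch r par v ∪
      (if v = r then ∅ else {par v})) := by
    rw [Finset.disjoint_left]
    intro w hw hw2
    rw [mem_neighborFinset] at hw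
    rw [Finset.mem_union, mem_ch] at hw2
    rcases hw2 with h | h
    · exact hw.2.1 h
    · by_cases hr : v = r
      · simp [hr] at h
      · rw [if_neg hr, Finset.mem_singleton] at h
        exact hw.2.2 ⟨hr, h.symm⟩
  rw [← card_neighborFinset_eq_degree, h1, Finset.card_union_of_disjoint h3,
    Finset.card_union_of_disjoint h2, card_neighborFinset_eq_degree]
  by_cases h : v = r
  · simp [h]
  · simp [h]; omega

lemma sum_ch {M : Type} [AddCommMonoid M] (f : V → M) :
    ∑ c, ∑ u ∈ ch r par c, f u = ∑ u ∈ Finset.univ.erase r, f u := by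
  rw [← Finset.sum_fiberwise_of_maps_to (s := Finset.univ.erase r) (t := Finset.univ)
    (g := par) (fun _ _ => Finset.mem_univ _)]
  refine Finset.sum_congr rfl (fun c _ => Finset.sum_congr ?_ (fun _ _ => rfl))
  ext u
  rw [mem_ch, Finset.mem_filter, Finset.mem_erase]
  simp

lemma edges_eq : (G.edgeFinset.card : ℤ) = (HG G r par).edgeFinset.card +
    (Finset.univ.erase r : Finset V).card := by
  have h1 := G.sum_degrees_eq_twice_card_edges
  have h2 := (HG G r par).sum_degrees_eq_twice_card_edges
  have h3 : ∑ v, G.degree v = ∑ v, (HG G r par).degree v + ∑ v, (ch r par v).card +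
      ∑ v, (if v = r then 0 else 1) := by
    rw [← Finset.sum_add_distrib, ← Finset.sum_add_distrib]
    exact Finset.sum_congr rfl (fun v _ => S.degree_eq v)
  have h4 : ∑ v, (ch r par v).card = (Finset.univ.erase r : Finset V).card := by
    have := S.sum_ch (fun _ => (1 : ℕ))
    simpa using this
  have h5 : ∑ v, (if v = r then 0 else 1) = (Finset.univ.erase r : Finset V).card := by
    rw [Finset.card_eq_sum_ones, ← Finset.add_sum_erase _ _ (Finset.mem_univ r), if_pos rfl,
      zero_add]
    exact Finset.sum_congr rfl (fun v hv => if_neg (Finset.ne_of_mem_erase hv))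
  omega

/-- A special leaf has small neighbours. -/
lemma sp_nbr {l w : V} (hl : Sp G r par l) (h : (HG G r par).Adj l w) :
    Leaf r par w ∧ G.degree w + 2 ≤ G.degree l := by
  obtain ⟨h1, h2, h3, h4, h5, h6⟩ := hl
  have hw : w ≠ par l := fun e => h.2.2 ⟨h1, e.symm⟩
  obtain ⟨e1, e2⟩ := S.opt l ⟨h1, h2⟩ h3 w h.1 hw
  exact ⟨e1, by omega⟩

lemma sp_sp {l w : V} (hl : Sp G r par l) (hw : Sp G r par w) : ¬ (HG G r par).Adj l w := by
  intro h
  have h1 := (S.sp_nbr hl h).2
  have h2 := (S.sp_nbr hw h.symm).2
  omega

lemma sum_sh : ∑ v, sh G r par v ≤ 2 * ((HG G r par).edgeFinset.card : ℤ) := by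
  have hsum : ∀ f : V → V → ℤ, ∑ v, ∑ w ∈ (HG G r par).neighborFinset v, f v w =
      ∑ v, ∑ w, if (HG G r par).Adj v w then f v w else 0 := by
    intro f
    refine Finset.sum_congr rfl (fun v _ => ?_)
    rw [← Finset.sum_filter]
    refine Finset.sum_congr ?_ (fun _ _ => rfl)
    ext w
    simp
  have h1 : ∑ v, sh G r par v = ∑ v, ∑ w, if (HG G r par).Adj v w then shr G r par v w else 0 :=
    hsum _
  have h2 : ∑ v, sh G r par v = ∑ v, ∑ w, if (HG G r par).Adj v w then shr G r par w v else 0 := by
    rw [h1, Finset.sum_comm]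
    refine Finset.sum_congr rfl (fun v _ => Finset.sum_congr rfl (fun w _ => ?_))
    by_cases h : (HG G r par).Adj v w
    · rw [if_pos h, if_pos h.symm]
    · rw [if_neg h, if_neg (fun h' => h h'.symm)]
  have h3 : (2 * ((HG G r par).edgeFinset.card : ℤ)) =
      ∑ v, ∑ w, if (HG G r par).Adj v w then (1 : ℤ) else 0 := by
    rw [← hsum]
    have h0 := (HG G r par).sum_degrees_eq_twice_card_edges
    have h0' : (2 * ((HG G r par).edgeFinset.card : ℤ)) = ∑ v, ((HG G r par).degree v : ℤ) := by
      exact_mod_cast h0.symm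
    rw [h0']
    refine Finset.sum_congr rfl (fun v _ => ?_)
    simp
  have h4 : 2 * ∑ v, sh G r par v ≤
      2 * ∑ v, ∑ w, if (HG G r par).Adj v w then (1 : ℤ) else 0 := by
    calc 2 * ∑ v, sh G r par v = ∑ v, sh G r par v + ∑ v, sh G r par v := by ring
      _ = ∑ v, ∑ w, ((if (HG G r par).Adj v w then shr G r par v w else 0) +
            (if (HG G r par).Adj v w then shr G r par w v else 0)) := by
          conv_lhs => rw [h1]
          rw [← h1]
          conv_lhs => lhs; rw [h1]
          rw [h2, ← Finset.sum_add_distrib]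
          refine Finset.sum_congr rfl (fun v _ => ?_)
          rw [← Finset.sum_add_distrib]
      _ ≤ ∑ v, ∑ w, (2 * if (HG G r par).Adj v w then (1 : ℤ) else 0) := by
          refine Finset.sum_le_sum (fun v _ => Finset.sum_le_sum (fun w _ => ?_))
          by_cases h : (HG G r par).Adj v w
          · rw [if_pos h, if_pos h, if_pos h]
            unfold shr
            have := fun a b => S.sp_sp (l := v) (w := w) a b
            split_ifs with a b
            · exact absurd h (S.sp_sp a b)
            · norm_num
            · norm_num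
            · norm_num
          · rw [if_neg h, if_neg h, if_neg h]; norm_num
      _ = 2 * ∑ v, ∑ w, if (HG G r par).Adj v w then (1 : ℤ) else 0 := by
          rw [Finset.mul_sum]
          refine Finset.sum_congr rfl (fun v _ => ?_)
          rw [Finset.mul_sum]
  rw [h3]
  linarith

/-- Vertices with children. -/
lemma sh_nonleaf {v : V} (hv : ch r par v ≠ ∅) : sh G r par v = (HG G r par).degree v := by
  unfold sh
  have : ∀ w ∈ (HG G r par).neighborFinset v, shr G r par v w = 1 := by
    intro w hw
    rw [mem_neighborFinset] at hw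
    unfold shr
    rw [if_neg (fun h => hv h.2.1), if_neg]
    intro h
    exact hv (S.sp_nbr h hw.symm).1.2
  rw [Finset.sum_congr rfl this]
  simp

/-- Leaves of large degree. -/
lemma sh_leaf {v : V} (hv : ¬ Sp G r par v) (h2 : 5 ≤ G.degree v) :
    sh G r par v = (HG G r par).degree v := by
  unfold sh
  have : ∀ w ∈ (HG G r par).neighborFinset v, shr G r par v w = 1 := by
    intro w hw
    rw [mem_neighborFinset] at hw
    unfold shr
    rw [if_neg hv, if_neg]
    intro h
    have := (S.sp_nbr h hw.symm).2
    have := h.2.2.2.2.2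
    omega
  rw [Finset.sum_congr rfl this]
  simp

lemma sh_sp {v : V} (hv : Sp G r par v) : sh G r par v = 2 * (HG G r par).degree v := by
  unfold sh
  have : ∀ w ∈ (HG G r par).neighborFinset v, shr G r par v w = 2 := by
    intro w hw
    unfold shr
    rw [if_pos hv]
  rw [Finset.sum_congr rfl this]
  simp
  ring

end Setup

end Pool.Agent.V8H44.ML
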