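import Pool.Agent.Helper6W.Greedy

/-!
Rooted spanning trees for irregularising walks: definitions.
-/

namespace Pool.Agent.V8H44.ML

open SimpleGraph Pool.Agent.Helper6W

variable {V : Type} [Fintype V] [DecidableEq V]

/-- `par` is the parent function of a spanning tree of `G` with root `r`, `dep` is the depth. -/
structure RTree (G : SimpleGraph V) (r : V) (par : V → V) (dep : V → ℕ) : Prop where
  adj : ∀ v, v ≠ r → G.Adj v (par v)
  dep : ∀ v, v ≠ r → dep v = dep (par v) + 1

/-- Children. -/
def ch (r : V) (par : V → V) (v : V) : Finset V := Finset.univ.filter (fun w => w ≠ r ∧ par w = v)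

/-- Leaves of the rooted tree. -/
def Leaf (r : V) (par : V → V) (v : V) : Prop := v ≠ r ∧ ch r par v = ∅

instance (r : V) (par : V → V) (v : V) : Decidable (Leaf r par v) :=
  inferInstanceAs (Decidable (_ ∧ _))

/-- A leaf which is the only child of its parent has, besides its parent, only leaves as
neighbours, and their degrees are at most the degree of the parent. -/
def Opt (G : SimpleGraph V) [DecidableRel G.Adj] (r : V) (par : V → V) : Prop :=
  ∀ l, Leaf r par l → ch r par (par l) = {l} → ∀ w, G.Adj l w → w ≠ par l →
    Leaf r par w ∧ G.degree w ≤ G.degree (par l)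

/-- Existence of an optimal rooted spanning tree (any root). -/
def StmTree : Prop :=
  ∀ (V : Type) [Fintype V] [DecidableEq V] (G : SimpleGraph V) [DecidableRel G.Adj],
    G.Connected → 3 ≤ Fintype.card V → ∀ r : V,
      ∃ (par : V → V) (dep : V → ℕ), RTree G r par dep ∧ Opt G r par

/-- Walk with prescribed multiplicities on the tree edges; edges to leaves may have value 0. -/
def StmWalk : Prop :=
  ∀ (V : Type) [Fintype V] [DecidableEq V] (G : SimpleGraph V) [DecidableRel G.Adj]
    (r : V) (par : V → V) (dep : V → ℕ) (s : V → ℕ), RTree G r par dep →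
      (∀ v, v ≠ r → ¬ Leaf r par v → 1 ≤ s v) →
      (∀ x y, G.Adj x y → DD G r par s x ≠ DD G r par s y) →
      ∃ w : G.Walk r r, Irregularising G w ∧ w.length = 2 * ∑ x ∈ Finset.univ.erase r, s x

end Pool.Agent.V8H44.ML
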