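import Pool.Agent.V8H44.ML.Defs

/-!
The greedy choice of the values of the tree edges, in the order of a key.
-/

namespace Pool.Agent.V8H44.ML

open SimpleGraph Pool.Agent.Helper6W

variable {V : Type} [Fintype V] [DecidableEq V]

section

variable (r : V) (par : V → V)

lemma mem_ch {v w : V} : w ∈ ch r par v ↔ w ≠ r ∧ par w = v := by simp [ch]

/-- The variables on which the degree of `v` depends. -/
def Var (v : V) : Finset V := (if v = r then ∅ else {v}) ∪ ch r par v

lemma mem_Var {v w : V} : w ∈ Var r par v ↔ w ≠ r ∧ (w = v ∨ par w = v) := by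
  unfold Var
  rw [Finset.mem_union, mem_ch]
  by_cases h : v = r
  · rw [if_pos h]
    constructor
    · rintro (h' | h')
      · simp at h'
      · exact ⟨h'.1, Or.inr h'.2⟩
    · rintro ⟨h1, rfl | h2⟩
      · exact absurd h h1
      · exact Or.inr ⟨h1, h2⟩
  · rw [if_neg h, Finset.mem_singleton]
    constructor
    · rintro (rfl | h')
      · exact ⟨h, Or.inl rfl⟩
      · exact ⟨h'.1, Or.inr h'.2⟩
    · rintro ⟨h1, h2 | h2⟩
      · exact Or.inl h2
      · exact Or.inr ⟨h1, h2⟩

/-- The variables on which the difference of the degrees of `x` and `y` depends. -/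
def Rel (x y : V) : Finset V := (Var r par x \ Var r par y) ∪ (Var r par y \ Var r par x)

lemma Rel_comm (x y : V) : Rel r par x y = Rel r par y x := by
  unfold Rel; rw [Finset.union_comm]

variable (key : V → ℕ)

/-- `u` is the last variable of the edge `xy`. -/
def IsD (u x y : V) : Prop := u ∈ Rel r par x y ∧ ∀ w ∈ Rel r par x y, key w ≤ key u

lemma IsD_comm {u x y : V} : IsD r par key u x y ↔ IsD r par key u y x := by
  unfold IsD; rw [Rel_comm]

variable (G : SimpleGraph V) [DecidableRel G.Adj]

lemma DD_Var (hself : ∀ v, v ≠ r → par v ≠ v) (s : V → ℕ) (v : V) :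
    DD G r par s v = G.degree v + 2 * ∑ w ∈ Var r par v, s w := by
  unfold DD Var
  rw [Finset.sum_union]
  · by_cases h : v = r
    · simp [h, ch]
    · simp [h, ch]
  · by_cases h : v = r
    · simp [h]
    · rw [if_neg h, Finset.disjoint_singleton_left, mem_ch]
      rintro ⟨h1, h2⟩
      exact hself v h h2

lemma DD_iff (hself : ∀ v, v ≠ r → par v ≠ v) (s : V → ℕ) (x y : V) :
    DD G r par s x = DD G r par s y ↔
      G.degree x + 2 * ∑ w ∈ Var r par x \ Var r par y, s w =
        G.degree y + 2 * ∑ w ∈ Var r par y \ Var r par x, s w := by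
  rw [DD_Var r par G hself, DD_Var r par G hself]
  have h1 := Finset.sum_inter_add_sum_sdiff (Var r par x) (Var r par y) s
  have h2 := Finset.sum_inter_add_sum_sdiff (Var r par y) (Var r par x) s
  rw [Finset.inter_comm] at h2
  omega

/-- Only the values of the relevant variables matter. -/
lemma DD_congr (hself : ∀ v, v ≠ r → par v ≠ v) {s s' : V → ℕ} {x y : V}
    (h : ∀ w ∈ Rel r par x y, s w = s' w) :
    DD G r par s x = DD G r par s y ↔ DD G r par s' x = DD G r par s' y := by
  rw [DD_iff r par G hself, DD_iff r par G hself]
  have h1 : ∑ w ∈ Var r par x \ Var r par y, s w = ∑ w ∈ Var r par x \ Var r par y, s' w :=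
    Finset.sum_congr rfl (fun w hw => h w (Finset.mem_union_left _ hw))
  have h2 : ∑ w ∈ Var r par y \ Var r par x, s w = ∑ w ∈ Var r par y \ Var r par x, s' w :=
    Finset.sum_congr rfl (fun w hw => h w (Finset.mem_union_right _ hw))
  rw [h1, h2]

/-- An edge blocks at most one value of its last variable. -/
lemma block_unique (hself : ∀ v, v ≠ r → par v ≠ v) {s : V → ℕ} {u x y : V}
    (hu : u ∈ Rel r par x y) {i j : ℕ}
    (hi : DD G r par (Function.update s u i) x = DD G r par (Function.update s u i) y)
    (hj : DD G r par (Function.update s u j) x = DD G r par (Function.update s u j) y) :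
    i = j := by
  rw [DD_iff r par G hself] at hi hj
  have key : ∀ (A : Finset V) (i : ℕ), u ∈ A → ∑ w ∈ A, Function.update s u i w
      = i + ∑ w ∈ A.erase u, s w := by
    intro A i hA
    rw [← Finset.add_sum_erase _ _ hA, Function.update_self]
    congr 1
    exact Finset.sum_congr rfl (fun w hw => by
      rw [Function.update_of_ne (Finset.ne_of_mem_erase hw)])
  have key2 : ∀ (A : Finset V) (i : ℕ), u ∉ A → ∑ w ∈ A, Function.update s u i w
      = ∑ w ∈ A, s w := by
    intro A i hA
    refine Finset.sum_congr rfl (fun w hw => ?_)
    rw [Function.update_of_ne]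
    rintro rfl
    exact hA hw
  rcases Finset.mem_union.mp hu with h | h
  · have h' : u ∉ Var r par y \ Var r par x := by
      simp only [Finset.mem_sdiff] at h ⊢
      tauto
    rw [key _ _ h, key2 _ _ h'] at hi hj
    omega
  · have h' : u ∉ Var r par x \ Var r par y := by
      simp only [Finset.mem_sdiff] at h ⊢
      tauto
    rw [key _ _ h, key2 _ _ h'] at hi hj
    omega

/-- Greedy choice. -/
theorem greedy' (hself : ∀ v, v ≠ r → par v ≠ v) (hkey : Function.Injective key)
    (base : V → ℕ) : ∃ s : V → ℕ, (∀ u, base u ≤ s u) ∧
      (∀ u x y, G.Adj x y → IsD r par key u x y → DD G r par s x ≠ DD G r par s y) ∧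
      (∀ u j, base u ≤ j → j < s u → ∃ x y, G.Adj x y ∧ IsD r par key u x y ∧
        DD G r par (Function.update s u j) x = DD G r par (Function.update s u j) y) := by
  have main : ∀ k : ℕ, ∃ s : V → ℕ, ∀ u, key u < k → (base u ≤ s u ∧
      (∀ x y, G.Adj x y → IsD r par key u x y → DD G r par s x ≠ DD G r par s y) ∧
      (∀ j, base u ≤ j → j < s u → ∃ x y, G.Adj x y ∧ IsD r par key u x y ∧
        DD G r par (Function.update s u j) x = DD G r par (Function.update s u j) y)) := by
    intro k
    induction k with
    | zero => exact ⟨fun _ => 0, fun u hu => absurd hu (Nat.not_lt_zero _)⟩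
    | succ k ih =>
      obtain ⟨s, hs⟩ := ih
      by_cases hex : ∃ u, key u = k
      · obtain ⟨u, hu⟩ := hex
        let blocked : ℕ → Prop := fun j => ∃ x y, G.Adj x y ∧ IsD r par key u x y ∧
          DD G r par (Function.update s u j) x = DD G r par (Function.update s u j) y
        have hfin : {j | blocked j}.Finite := by
          have hsub : {j | blocked j} ⊆ ⋃ p : V × V, {j | IsD r par key u p.1 p.2 ∧
              DD G r par (Function.update s u j) p.1 = DD G r par (Function.update s u j) p.2} := by
            rintro j ⟨x, y, _, h1, h2⟩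
            exact Set.mem_iUnion.mpr ⟨(x, y), h1, h2⟩
          refine Set.Finite.subset (Set.finite_iUnion (fun p => ?_)) hsub
          apply Set.Subsingleton.finite
          rintro i ⟨h1, h2⟩ j ⟨h3, h4⟩
          exact block_unique r par G hself h1.1 h2 h4
        have hexj : ∃ j, base u ≤ j ∧ ¬ blocked j := by
          obtain ⟨b, hb⟩ := hfin.bddAbove
          refine ⟨base u + b + 1, by omega, fun h => ?_⟩
          have := hb h
          omega
        classical
        set j0 := Nat.find hexj with hj0
        have hj1 := Nat.find_spec hexj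
        have hj2 : ∀ j, base u ≤ j → j < j0 → blocked j := by
          intro j hb hj
          have := Nat.find_min hexj hj
          by_contra h
          exact this ⟨hb, h⟩
        refine ⟨Function.update s u j0, fun v hv => ?_⟩
        by_cases hvu : v = u
        · subst hvu
          refine ⟨by rw [Function.update_self]; exact hj1.1, ?_, ?_⟩
          · intro x y hxy hD heq
            exact hj1.2 ⟨x, y, hxy, hD, heq⟩
          · intro j hb hj
            rw [Function.update_self] at hj
            obtain ⟨x, y, h1, h2, h3⟩ := hj2 j hb hj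
            refine ⟨x, y, h1, h2, ?_⟩
            rw [Function.update_idem]
            exact h3
        · have hkv : key v < k := by
            have : key v ≠ k := fun h => hvu (hkey (h.trans hu.symm))
            omega
          obtain ⟨h1, h2, h3⟩ := hs v hkv
          have hagree : ∀ w, key w ≤ key v → Function.update s u j0 w = s w := by
            intro w hw
            rw [Function.update_of_ne]
            rintro rfl
            omega
          refine ⟨by rw [Function.update_of_ne hvu]; exact h1, ?_, ?_⟩
          · intro x y hxy hD heq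
            apply h2 x y hxy hD
            rw [← DD_congr r par G hself (s := Function.update s u j0)]
            · exact heq
            · intro w hw
              exact hagree w (hD.2 w hw)
          · intro j hb hj
            rw [Function.update_of_ne hvu] at hj
            obtain ⟨x, y, h4, h5, h6⟩ := h3 j hb hj
            refine ⟨x, y, h4, h5, ?_⟩
            rw [DD_congr r par G hself (s' := Function.update s v j)]
            · exact h6
            · intro w hw
              by_cases hwv : w = v
              · subst hwv
                rw [Function.update_self, Function.update_self]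
              · rw [Function.update_of_ne hwv, Function.update_of_ne hwv]
                exact hagree w (h5.2 w hw)
      · refine ⟨s, fun v hv => hs v ?_⟩
        have : key v ≠ k := fun h => hex ⟨v, h⟩
        omega
  obtain ⟨s, hs⟩ := main (Finset.univ.sup key + 1)
  have hlt : ∀ u, key u < Finset.univ.sup key + 1 := fun u =>
    Nat.lt_succ_of_le (Finset.le_sup (f := key) (Finset.mem_univ u))
  exact ⟨s, fun u => (hs u (hlt u)).1, fun u => (hs u (hlt u)).2.1,
    fun u => (hs u (hlt u)).2.2⟩

/-- The edge `xy` is effective: it blocks a value of its last variable between the base value and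
the chosen value. -/
def Eff (base s : V → ℕ) (x y : V) : Prop := ∃ u, IsD r par key u x y ∧ ∃ j, base u ≤ j ∧
  j < s u ∧ DD G r par (Function.update s u j) x = DD G r par (Function.update s u j) y

lemma Eff_comm {base s : V → ℕ} {x y : V} :
    Eff r par key G base s x y ↔ Eff r par key G base s y x := by
  unfold Eff
  constructor
  · rintro ⟨u, h1, j, h2, h3, h4⟩
    exact ⟨u, (IsD_comm r par key).mp h1, j, h2, h3, h4.symm⟩
  · rintro ⟨u, h1, j, h2, h3, h4⟩
    exact ⟨u, (IsD_comm r par key).mp h1, j, h2, h3, h4.symm⟩

lemma IsD_unique (hkey : Function.Injective key) {u v x y : V} (h1 : IsD r par key u x y)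
    (h2 : IsD r par key v x y) : u = v :=
  hkey (le_antisymm (h2.2 u h1.1) (h1.2 v h2.1))

/-- The number of values skipped at `u` is at most the number of edges in any finite set which
contains all effective edges with last variable `u`. -/
lemma extra_le (hself : ∀ v, v ≠ r → par v ≠ v) {base s : V → ℕ} {u : V}
    (hs : ∀ j, base u ≤ j → j < s u → ∃ x y, G.Adj x y ∧ IsD r par key u x y ∧
        DD G r par (Function.update s u j) x = DD G r par (Function.update s u j) y)
    (A : Finset (Sym2 V))
    (hA : ∀ x y, G.Adj x y → IsD r par key u x y → Eff r par key G base s x y → s(x, y) ∈ A) :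
    s u - base u ≤ A.card := by
  have hs' : ∀ j : ℕ, ∃ p : V × V, base u ≤ j → j < s u → G.Adj p.1 p.2 ∧
      IsD r par key u p.1 p.2 ∧
        DD G r par (Function.update s u j) p.1 = DD G r par (Function.update s u j) p.2 := by
    intro j
    by_cases hj : base u ≤ j ∧ j < s u
    · obtain ⟨x, y, h⟩ := hs j hj.1 hj.2
      exact ⟨(x, y), fun _ _ => h⟩
    · exact ⟨(u, u), fun h1 h2 => absurd ⟨h1, h2⟩ hj⟩
  choose f hf using hs'
  have h1 := fun j a b => (hf j a b).1
  have h2 := fun j a b => (hf j a b).2.1
  have h3 := fun j a b => (hf j a b).2.2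
  have hcard : s u - base u = (Finset.Ico (base u) (s u)).card := by simp
  rw [hcard]
  refine Finset.card_le_card_of_injOn (fun j => s((f j).1, (f j).2)) ?_ ?_
  · intro j hj
    rw [Finset.coe_Ico, Set.mem_Ico] at hj
    exact hA _ _ (h1 j hj.1 hj.2) (h2 j hj.1 hj.2)
      ⟨u, h2 j hj.1 hj.2, j, hj.1, hj.2, h3 j hj.1 hj.2⟩
  · intro i hi j hj hij
    rw [Finset.coe_Ico, Set.mem_Ico] at hi hj
    simp only [Sym2.eq_iff] at hij
    rcases hij with ⟨e1, e2⟩ | ⟨e1, e2⟩
    · have h4 := h3 i hi.1 hi.2
      rw [e1, e2] at h4
      exact block_unique r par G hself (h2 j hj.1 hj.2).1 h4 (h3 j hj.1 hj.2)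
    · have h4 := h3 i hi.1 hi.2
      rw [e1, e2] at h4
      exact block_unique r par G hself (h2 j hj.1 hj.2).1 h4.symm (h3 j hj.1 hj.2)

end

end Pool.Agent.V8H44.ML
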