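import Pool.Agent.V8H44.ML.Cnt

/-!
The potential and the local inequality.
-/

namespace Pool.Agent.V8H44.ML

open SimpleGraph Pool.Agent.Helper6W

variable {V : Type} [Fintype V] [DecidableEq V]

/-- The potential of a vertex which is not the parent of a single leaf. -/
def phi (a k : ℤ) : ℤ :=
  if k ≤ 1 then (if a = 2 ∨ a = 3 then -2 else 0)
  else if k = 2 then (if a = 2 then 0 else if a = 3 then -1 else if a = 5 then 0 else 2)
  else (if a = 2 then 0 else if a = 3 ∨ a = 5 then 1 else 2)

lemma phi_ge (a k : ℤ) : -2 ≤ phi a k := by unfold phi; split_ifs <;> norm_num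

lemma phi_le (a k : ℤ) : phi a k ≤ 2 := by unfold phi; split_ifs <;> norm_num

lemma phi_le0 {a k : ℤ} (h : k ≤ 1) : phi a k ≤ 0 := by unfold phi; split_ifs <;> omega

lemma phi_le0' {k : ℤ} : phi 2 k ≤ 0 := by unfold phi; split_ifs <;> omega

lemma phi_5 {a k : ℤ} (h : 5 ≤ a) : 0 ≤ phi a k := by unfold phi; split_ifs <;> omega

lemma phi_7 {a k : ℤ} (h : 7 ≤ a) (hk : 2 ≤ k) : 2 ≤ phi a k := by
  unfold phi; split_ifs <;> omega

/-- The chain inequality, parent edge effective. -/
lemma chain_eff {n k t j : ℤ} (hn : 0 ≤ n) (hk : 1 ≤ k) (hj : 1 ≤ j) (hjt : j < t)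
    (ht : t ≤ 2 + n) : phi (n + 2 * j) k ≤ n - 2 + phi (n + 2 * k) t := by
  unfold phi; split_ifs <;> omega

/-- The chain inequality, parent edge not effective. -/
lemma chain_ne {n k t a : ℤ} (hn : 0 ≤ n) (hk : 1 ≤ k) :
    phi a k ≤ n + 2 + phi (n + 2 * k) t := by
  unfold phi; split_ifs <;> omega

section

variable (G : SimpleGraph V) [DecidableRel G.Adj] (r : V) (par : V → V) (key s : V → ℕ)

open Classical in
/-- Indicator of effectiveness of the parent edge. -/
noncomputable def ee (v : V) : ℤ := if Eff r par key G (base r par) s v (par v) then 1 else 0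

/-- The parent of a single leaf, whose edge is effective. -/
def TE (z : V) : Prop := ∃ l, ch r par z = {l} ∧ ch r par l = ∅ ∧
  Eff r par key G (base r par) s l z

/-- The parent of a single leaf. -/
def TM (z : V) : Prop := ∃ l, ch r par z = {l} ∧ ch r par l = ∅

/-- The external degree parameter of the parent. -/
def aa (c : V) : ℤ := (G.degree (par c) : ℤ) - 2 + 2 * ∑ w ∈ (Var r par (par c)).erase c, (s w : ℤ)

open Classical in
/-- The potential. -/
noncomputable def PP (c : V) : ℤ :=
  if TE G r par key s c then 4 else if TM r par c then (if Odd (aa G r par s c) then 3 else 2)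
  else phi (aa G r par s c) (s c)

/-- The contribution of a vertex to the sum at its parent. -/
noncomputable def YY (u : V) : ℤ :=
  if ch r par u = ∅ then 6 - 4 * ee G r par key s u + sh G r par u else 2 + PP G r par key s u

lemma ee_nonneg (v : V) : 0 ≤ ee G r par key s v := by unfold ee; split_ifs <;> norm_num

lemma ee_le (v : V) : ee G r par key s v ≤ 1 := by unfold ee; split_ifs <;> norm_num

lemma PP_ge (c : V) : -2 ≤ PP G r par key s c := by
  unfold PP
  have := phi_ge (aa G r par s c) (s c)
  split_ifs <;> omega

lemma YY_nonneg (u : V) : 0 ≤ YY G r par key s u := by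
  unfold YY
  have h1 := PP_ge G r par key s u
  have h2 := ee_le G r par key s u
  have h3 := sh_nonneg G r par u
  split_ifs <;> omega

end

namespace Setup

variable {G : SimpleGraph V} [DecidableRel G.Adj] {r : V} {par : V → V} {dep key s : V → ℕ}
  (S : Setup G r par dep key s)

include S

lemma s_pos {v : V} (hv : ch r par v ≠ ∅) : 1 ≤ s v := by
  have := S.hs1 v
  unfold base at this
  rwa [if_neg hv] at this

lemma aa_child {c u : V} (hc : c ≠ r) (hu : u ∈ ch r par c) :
    aa G r par s u = (HG G r par).degree c + (ch r par c).card - 1 +
      2 * (s c + ∑ w ∈ (ch r par c).erase u, (s w : ℤ)) := by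
  have hu' := hu
  rw [mem_ch] at hu'
  have hcu : c ≠ u := by
    rintro rfl
    exact S.hself c hc hu'.2
  have hcc : c ∉ (ch r par c).erase u := by
    rw [Finset.mem_erase, mem_ch]
    rintro ⟨-, -, h⟩
    exact S.hself c hc h
  have h1 : (Var r par c).erase u = insert c ((ch r par c).erase u) := by
    ext w
    rw [Finset.mem_erase, mem_Var, Finset.mem_insert, Finset.mem_erase, mem_ch]
    constructor
    · rintro ⟨h0, h1, h2 | h2⟩
      · exact Or.inl h2
      · exact Or.inr ⟨h0, h1, h2⟩
    · rintro (rfl | ⟨h0, h1, h2⟩)
      · exact ⟨hcu, hc, Or.inl rfl⟩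
      · exact ⟨h0, h1, Or.inr h2⟩
  unfold aa
  rw [hu'.2, h1, Finset.sum_insert hcc, S.degree_eq c, if_neg hc]
  push_cast
  ring

lemma aa_eff {c : V} (hc : c ≠ r) (hch : ch r par c ≠ ∅)
    (h : Eff r par key G (base r par) s c (par c)) :
    ∃ y ∈ ch r par c, (∀ w ∈ ch r par c, key w ≤ key y) ∧ ∃ j : ℕ, base r par y ≤ j ∧ j < s y ∧
      aa G r par s c = (HG G r par).degree c + (ch r par c).card - 1 +
        2 * (∑ w ∈ (ch r par c).erase y, (s w : ℤ) + j) := by
  obtain ⟨y, hy, hmax, j, h1, h2, h3⟩ := S.eff_par hc hch h
  refine ⟨y, hy, hmax, j, h1, h2, ?_⟩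
  unfold aa
  have e := S.degree_eq c
  rw [if_neg hc] at e
  rw [e] at h3
  have h3' : ((HG G r par).degree c : ℤ) + (ch r par c).card + 1 +
      2 * (∑ w ∈ (ch r par c).erase y, (s w : ℤ) + j) =
      (G.degree (par c) : ℤ) + 2 * ∑ w ∈ (Var r par (par c)).erase c, (s w : ℤ) := by
    exact_mod_cast h3
  linarith

/-- Leaves with siblings. -/
lemma YY_leaf {c l : V} (hc : c ≠ r) (hl : l ∈ ch r par c) (hl2 : ch r par l = ∅)
    (h2 : ch r par c ≠ {l}) : 6 ≤ YY G r par key s l := by
  have hl' := hl
  rw [mem_ch] at hl'
  unfold YY
  rw [if_pos hl2]
  have hsh := sh_nonneg G r par l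
  by_cases hE : Eff r par key G (base r par) s l (par l)
  · have hee : ee G r par key s l = 1 := by unfold ee; rw [if_pos hE]
    obtain ⟨u, hu, j, hj1, hj2, hj3⟩ := S.eff_leaf hl'.1 hl2 hE
    rw [hl'.2] at hj3 hu
    have hcm : c ∈ (Var r par c).erase l := by
      rw [Finset.mem_erase, mem_Var]
      refine ⟨?_, hc, Or.inl rfl⟩
      rintro rfl
      exact S.hself c hc hl'.2
    have hcne : ch r par c ≠ ∅ := Finset.ne_empty_of_mem hl
    have h5 : 1 ≤ Function.update s u j c := by
      by_cases hcu : c = u
      · subst hcu
        rw [Function.update_self]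
        unfold base at hj1
        rwa [if_neg hcne] at hj1
      · rw [Function.update_of_ne hcu]
        exact S.s_pos hcne
    have h6 : Function.update s u j c ≤ ∑ w ∈ (Var r par c).erase l, Function.update s u j w :=
      Finset.single_le_sum (f := fun w => Function.update s u j w) (fun _ _ => Nat.zero_le _) hcm
    have h7 : 2 ≤ (ch r par c).card := by
      by_contra hlt
      have h8 : (ch r par c).card ≤ 1 := by omega
      apply h2
      exact Finset.eq_singleton_iff_unique_mem.mpr
        ⟨hl, fun w hw => Finset.card_le_one.mp h8 w hw l hl⟩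
    have h9 := S.degree_eq c
    rw [if_neg hc] at h9
    have h10 : 5 ≤ G.degree l := by omega
    have h11 : ¬ Sp G r par l := by
      intro h
      have := h.2.2.1
      rw [hl'.2] at this
      exact h2 this
    have h12 := S.sh_leaf h11 h10
    have h13 := S.degree_eq l
    rw [hl2, Finset.card_empty, if_neg hl'.1] at h13
    rw [hee, h12]
    have : 4 ≤ (HG G r par).degree l := by omega
    have : (4 : ℤ) ≤ (HG G r par).degree l := by exact_mod_cast this
    linarith
  · have hee : ee G r par key s l = 0 := by unfold ee; rw [if_neg hE]
    rw [hee]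
    linarith

/-- Effective single leaves. -/
lemma sh_single {c l : V} (hl : ch r par c = {l}) (hl2 : ch r par l = ∅)
    (hE : Eff r par key G (base r par) s l c) : 6 ≤ sh G r par l := by
  have hl' : l ∈ ch r par c := by rw [hl]; exact Finset.mem_singleton_self l
  rw [mem_ch] at hl'
  have hcne : ch r par c ≠ ∅ := by rw [hl]; exact Finset.singleton_ne_empty l
  have hE' : Eff r par key G (base r par) s l (par l) := by rw [hl'.2]; exact hE
  obtain ⟨u, hu, j, hj1, hj2, hj3⟩ := S.eff_leaf hl'.1 hl2 hE'
  rw [hl'.2] at hj3 hu
  have hu' := hu
  rw [Finset.mem_erase, mem_Var] at hu'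
  obtain ⟨hul, hur, huc⟩ := hu'
  have huc' : u = c := by
    rcases huc with h | h
    · exact h
    · exfalso
      have : u ∈ ch r par c := (mem_ch r par).mpr ⟨hur, h⟩
      rw [hl, Finset.mem_singleton] at this
      exact hul this
  subst huc'
  have h6 : Function.update s u j u ≤ ∑ w ∈ (Var r par u).erase l, Function.update s u j w :=
    Finset.single_le_sum (f := fun w => Function.update s u j w) (fun _ _ => Nat.zero_le _) hu
  rw [Function.update_self] at h6
  unfold base at hj1
  rw [if_neg hcne] at hj1
  have h9 := S.degree_eq u
  rw [if_neg hur, hl, Finset.card_singleton] at h9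
  have h10 : G.degree u + 2 ≤ G.degree l := by omega
  have h13 := S.degree_eq l
  rw [hl2, Finset.card_empty, if_neg hl'.1] at h13
  by_cases h14 : G.degree l ≤ 6
  · have h15 : Sp G r par l := ⟨hl'.1, hl2, by rw [hl'.2]; exact hl, by rw [hl'.2]; exact hur,
      by rw [hl'.2]; exact h10, h14⟩
    rw [S.sh_sp h15]
    have : 3 ≤ (HG G r par).degree l := by omega
    have : (3 : ℤ) ≤ (HG G r par).degree l := by exact_mod_cast this
    linarith
  · have h16 : ¬ Sp G r par l := fun h => h14 h.2.2.2.2.2
    rw [S.sh_leaf h16 (by omega)]
    have : 6 ≤ (HG G r par).degree l := by omega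
    exact_mod_cast this

/-- The value of a single child which is not a leaf. -/
lemma kbound {c y : V} (hc : c ≠ r) (hch : ch r par c = {y}) (hy : ch r par y ≠ ∅) :
    ((s y : ℤ) ≤ 2 + ee G r par key s c + (HG G r par).degree c) ∧
    (¬ TE G r par key s y → (s y : ℤ) ≤ 1 + ee G r par key s c + (HG G r par).degree c) := by
  classical
  have hyc : y ∈ ch r par c := by rw [hch]; exact Finset.mem_singleton_self y
  have hyc' := hyc
  rw [mem_ch] at hyc'
  have hb : base r par y = 1 := by unfold base; rw [if_neg hy]
  set A : Finset (Sym2 V) :=
    (if Eff r par key G (base r par) s c (par c) then {s(c, par c)} else ∅) ∪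
      ((HG G r par).neighborFinset c).image (fun w => s(c, w)) with hA
  have hAc : (A.card : ℤ) ≤ ee G r par key s c + (HG G r par).degree c := by
    have h1 : A.card ≤ (if Eff r par key G (base r par) s c (par c) then
        ({s(c, par c)} : Finset (Sym2 V)) else ∅).card + (HG G r par).degree c := by
      refine (Finset.card_union_le _ _).trans ?_
      refine Nat.add_le_add_left ?_ _
      refine Finset.card_image_le.trans ?_
      rw [card_neighborFinset_eq_degree]
    have h2 : (((if Eff r par key G (base r par) s c (par c) then
        ({s(c, par c)} : Finset (Sym2 V)) else ∅).card : ℕ) : ℤ) = ee G r par key s c := by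
      unfold ee
      split_ifs <;> simp
    rw [← h2]
    exact_mod_cast h1
  have hchild : ∀ {x w : V}, w ∈ ch r par x → x ≠ r → par x = c → key y < key w := by
    intro x w hw hx hxc
    apply S.k2
    rw [mem_ch] at hw
    rw [hw.2, hyc'.2, ← hxc]
    have := S.tree.dep x hx
    omega
  -- classification
  have hcl : ∀ x z, G.Adj x z → IsD r par key y x z → y ∈ Var r par x → y ∉ Var r par z →
      Eff r par key G (base r par) s x z →
      s(x, z) ∈ A ∨ (TE G r par key s y ∧ ∃ l, ch r par y = {l} ∧ s(x, z) = s(y, l)) := by
    intro x z hxz hD hyx hyz hE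
    rw [mem_Var] at hyx hyz
    rcases hyx.2 with h | h
    · -- x = y
      rw [← h] at hxz hD hE
      have hlast : ∀ w ∈ ch r par y, w = z := by
        intro w hw
        have hk := hchild hw hyc'.1 hyc'.2
        by_contra hne
        have hw' := hw
        rw [mem_ch] at hw'
        have hyz' : z ≠ y := hxz.ne'
        have : w ∈ Rel r par y z := by
          unfold Rel
          refine Finset.mem_union_left _ ?_
          rw [Finset.mem_sdiff, mem_Var, mem_Var]
          refine ⟨⟨hw'.1, Or.inr hw'.2⟩, ?_⟩
          rintro ⟨-, h1 | h1⟩
          · exact hne h1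
          · exact hyz' (h1.symm.trans hw'.2)
        have := hD.2 w this
        omega
      obtain ⟨w, hw⟩ := Finset.nonempty_iff_ne_empty.mpr hy
      have hwz := hlast w hw
      subst hwz
      have hyw : ch r par y = {w} :=
        Finset.eq_singleton_iff_unique_mem.mpr ⟨hw, hlast⟩
      have hw' := hw
      rw [mem_ch] at hw'
      have hwleaf : ch r par w = ∅ := by
        by_contra hne
        obtain ⟨t, ht⟩ := Finset.nonempty_iff_ne_empty.mpr hne
        have ht' := ht
        rw [mem_ch] at ht'
        have : t ∈ Rel r par y w := by
          unfold Rel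
          refine Finset.mem_union_right _ ?_
          rw [Finset.mem_sdiff, mem_Var, mem_Var]
          refine ⟨⟨ht'.1, Or.inr ht'.2⟩, ?_⟩
          rintro ⟨-, h1 | h1⟩
          · have e1 := S.dep_ch ht
            have e2 := S.dep_ch hw
            rw [h1] at e1
            omega
          · exact hxz.ne (h1.symm.trans ht'.2)
        have h1 := hD.2 t this
        have h2 : key y < key t := by
          apply S.k2
          rw [ht'.2, hyc'.2]
          have e2 := S.dep_ch hw
          have e3 := S.dep_ch hyc
          omega
        omega
      right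
      rw [← h]
      refine ⟨⟨w, hyw, hwleaf, (Eff_comm r par key G).mp hE⟩, w, hyw, rfl⟩
    · -- x = c
      have hxc : x = c := h.symm.trans hyc'.2
      subst hxc
      left
      rw [hA, Finset.mem_union]
      by_cases hz : z = par x
      · left
        subst hz
        rw [if_pos hE]
        exact Finset.mem_singleton_self _
      · right
        rw [Finset.mem_image]
        refine ⟨z, ?_, rfl⟩
        rw [mem_neighborFinset]
        refine ⟨hxz, ?_, fun h' => hz h'.2.symm⟩
        rintro ⟨h1, h2⟩
        have : z ∈ ch r par x := (mem_ch r par).mpr ⟨h1, h2⟩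
        rw [hch, Finset.mem_singleton] at this
        subst this
        exact hyz ⟨hyx.1, Or.inl rfl⟩
  have hcl2 : ∀ x z, G.Adj x z → IsD r par key y x z → Eff r par key G (base r par) s x z →
      s(x, z) ∈ A ∨ (TE G r par key s y ∧ ∃ l, ch r par y = {l} ∧ s(x, z) = s(y, l)) := by
    intro x z hxz hD hE
    have hr := hD.1
    unfold Rel at hr
    rw [Finset.mem_union, Finset.mem_sdiff, Finset.mem_sdiff] at hr
    rcases hr with h | h
    · exact hcl x z hxz hD h.1 h.2 hE
    · have := hcl z x hxz.symm ((IsD_comm r par key).mp hD) h.1 h.2 ((Eff_comm r par key G).mp hE)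
      rwa [Sym2.eq_swap] at this
  have hs1 := S.hs1 y
  constructor
  · obtain ⟨w, hw⟩ := Finset.nonempty_iff_ne_empty.mpr hy
    have h1 := extra_le r par key G S.hself (S.hs3 y) (insert s(y, w) A) (by
      intro x z hxz hD hE
      rw [Finset.mem_insert]
      rcases hcl2 x z hxz hD hE with h | ⟨-, l, h, h2⟩
      · exact Or.inr h
      · left
        rw [h, Finset.mem_singleton] at hw
        rw [h2, hw])
    have h2 := Finset.card_insert_le s(y, w) A
    have h3 : s y ≤ A.card + 2 := by omega
    have h4 : (s y : ℤ) ≤ A.card + 2 := by exact_mod_cast h3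
    linarith
  · intro hTE
    have h1 := extra_le r par key G S.hself (S.hs3 y) A (by
      intro x z hxz hD hE
      rcases hcl2 x z hxz hD hE with h | ⟨h, -⟩
      · exact h
      · exact absurd h hTE)
    have h3 : s y ≤ A.card + 1 := by omega
    have h4 : (s y : ℤ) ≤ A.card + 1 := by exact_mod_cast h3
    linarith

/-- The local inequality. -/
lemma loc {c : V} (hc : c ≠ r) (hch : ch r par c ≠ ∅) :
    PP G r par key s c ≤ ∑ u ∈ ch r par c, YY G r par key s u + sh G r par c -
      4 * ee G r par key s c := by
  classical
  have hshc := S.sh_nonleaf hch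
  rw [hshc]
  have hn : (0 : ℤ) ≤ (HG G r par).degree c := by positivity
  set n : ℤ := (((HG G r par).degree c : ℕ) : ℤ) with hn_def
  have he0 := ee_nonneg G r par key s c
  have he1 := ee_le G r par key s c
  have hsc : (1 : ℤ) ≤ s c := by exact_mod_cast S.s_pos hch
  obtain ⟨u0, hu0⟩ := Finset.nonempty_iff_ne_empty.mpr hch
  by_cases hq : ch r par c = {u0}
  · -- one child
    rw [hq, Finset.sum_singleton]
    have hcard : ((ch r par c).card : ℤ) = 1 := by rw [hq]; simp
    by_cases hu : ch r par u0 = ∅
    · -- the child is a leaf
      have hTM : TM r par c := ⟨u0, hq, hu⟩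
      have hYY : YY G r par key s u0 = 6 - 4 * ee G r par key s u0 + sh G r par u0 := by
        unfold YY; rw [if_pos hu]
      have hsh0 := sh_nonneg G r par u0
      have hu0' := hu0
      rw [mem_ch] at hu0'
      by_cases hTE : TE G r par key s c
      · have hPP : PP G r par key s c = 4 := by unfold PP; rw [if_pos hTE]
        obtain ⟨l, h1, h2, h3⟩ := hTE
        have hl : l = u0 := by
          rw [hq] at h1
          exact (Finset.singleton_injective h1).symm
        rw [hl] at h3
        have h6 := S.sh_single hq hu h3
        have := ee_le G r par key s u0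
        rw [hPP, hYY]
        linarith
      · have hee : ee G r par key s u0 = 0 := by
          unfold ee
          rw [if_neg]
          intro h
          rw [hu0'.2] at h
          exact hTE ⟨u0, hq, hu, h⟩
        rw [hYY, hee]
        have hPP : PP G r par key s c = if Odd (aa G r par s c) then 3 else 2 := by
          unfold PP; rw [if_neg hTE, if_pos hTM]
        by_cases hE : Eff r par key G (base r par) s c (par c)
        · obtain ⟨y, hy, hmax, j, h1, h2, h3⟩ := S.aa_eff hc hch hE
          rw [hcard] at h3
          rw [hPP]
          by_cases hodd : Odd (aa G r par s c)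
          · rw [if_pos hodd]
            have hn1 : 1 ≤ n := by
              by_contra hlt
              have hn0 : n = 0 := by omega
              rw [← hn_def, hn0] at h3
              rw [← Int.not_even_iff_odd] at hodd
              apply hodd
              rw [h3]
              exact ⟨∑ w ∈ (ch r par c).erase y, (s w : ℤ) + j, by ring⟩
            linarith
          · rw [if_neg hodd]
            linarith
        · have hee2 : ee G r par key s c = 0 := by unfold ee; rw [if_neg hE]
          rw [hee2, hPP]
          split_ifs <;> linarith
    · -- chain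
      have hYY : YY G r par key s u0 = 2 + PP G r par key s u0 := by
        unfold YY; rw [if_neg hu]
      rw [hYY]
      have hPc : PP G r par key s c = phi (aa G r par s c) (s c) := by
        unfold PP
        have h1 : ¬ TM r par c := by
          rintro ⟨l, h1, h2⟩
          rw [hq] at h1
          rw [Finset.singleton_injective h1] at hu
          exact hu h2
        have h2 : ¬ TE G r par key s c := fun ⟨l, h2, h3, _⟩ => h1 ⟨l, h2, h3⟩
        rw [if_neg h2, if_neg h1]
      have haa : aa G r par s u0 = n + 2 * s c := by
        have := S.aa_child hc hu0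
        rw [hcard, hq] at this
        rw [this]
        simp
        ring
      have hk := S.kbound hc hq hu
      have hphi := phi_le (aa G r par s c) (s c)
      rw [hPc]
      by_cases hE : Eff r par key G (base r par) s c (par c)
      · have hee2 : ee G r par key s c = 1 := by unfold ee; rw [if_pos hE]
        obtain ⟨y, hy, hmax, j, h1, h2, h3⟩ := S.aa_eff hc hch hE
        have hyu : y = u0 := by rw [hq, Finset.mem_singleton] at hy; exact hy
        rw [hyu] at h1 h2 h3
        have hj1 : (1 : ℤ) ≤ j := by
          unfold base at h1
          rw [if_neg hu] at h1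
          exact_mod_cast h1
        have hj2 : (j : ℤ) < s u0 := by exact_mod_cast h2
        have h3' : aa G r par s c = n + 2 * j := by
          rw [h3, hcard, hq, ← hn_def]
          simp
        rw [hee2] at hk ⊢
        by_cases hTE : TE G r par key s u0
        · have hPP : PP G r par key s u0 = 4 := by unfold PP; rw [if_pos hTE]
          rw [hPP]
          linarith
        · have hk2 := hk.2 hTE
          by_cases hTM : TM r par u0
          · have hPP : PP G r par key s u0 = if Odd (aa G r par s u0) then 3 else 2 := by
              unfold PP; rw [if_neg hTE, if_pos hTM]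
            rw [hPP]
            by_cases hodd : Odd (aa G r par s u0)
            · rw [if_pos hodd]
              have hn1 : 1 ≤ n := by
                by_contra hlt
                have hn0 : n = 0 := by omega
                rw [haa, hn0] at hodd
                rw [← Int.not_even_iff_odd] at hodd
                exact hodd ⟨s c, by ring⟩
              linarith
            · rw [if_neg hodd]
              rw [Int.not_odd_iff_even] at hodd
              obtain ⟨t, ht⟩ := hodd
              by_cases hn2 : 2 ≤ n
              · linarith
              · have hn0 : n = 0 := by omega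
                have hj3 : (j : ℤ) = 1 := by omega
                rw [h3', hn0, hj3]
                have := phi_le0' (k := (s c : ℤ))
                norm_num
                linarith
          · have hPP : PP G r par key s u0 = phi (aa G r par s u0) (s u0) := by
              unfold PP; rw [if_neg hTE, if_neg hTM]
            rw [hPP, haa, h3']
            have := chain_eff (n := n) (k := s c) (t := s u0) (j := j) hn hsc hj1 hj2
              (by linarith)
            linarith
      · have hee2 : ee G r par key s c = 0 := by unfold ee; rw [if_neg hE]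
        rw [hee2]
        by_cases hTE : TE G r par key s u0
        · have hPP : PP G r par key s u0 = 4 := by unfold PP; rw [if_pos hTE]
          rw [hPP]
          linarith
        · by_cases hTM : TM r par u0
          · have hPP : PP G r par key s u0 = if Odd (aa G r par s u0) then 3 else 2 := by
              unfold PP; rw [if_neg hTE, if_pos hTM]
            rw [hPP]
            split_ifs <;> linarith
          · have hPP : PP G r par key s u0 = phi (aa G r par s u0) (s u0) := by
              unfold PP; rw [if_neg hTE, if_neg hTM]
            rw [hPP, haa]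
            have := chain_ne (n := n) (k := s c) (t := s u0) (a := aa G r par s c) hn hsc
            linarith
  · -- at least two children
    have hTM : ¬ TM r par c := by
      rintro ⟨l, h1, h2⟩
      rw [h1, Finset.mem_singleton] at hu0
      rw [hu0] at hq
      exact hq h1
    have hTE : ¬ TE G r par key s c := fun ⟨l, h2, h3, _⟩ => hTM ⟨l, h2, h3⟩
    have hPc : PP G r par key s c = phi (aa G r par s c) (s c) := by
      unfold PP
      rw [if_neg hTE, if_neg hTM]
    rw [hPc]
    have hphi := phi_le (aa G r par s c) (s c)
    have hcard : 2 ≤ (ch r par c).card := by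
      by_contra hlt
      have h8 : (ch r par c).card ≤ 1 := by omega
      exact hq (Finset.eq_singleton_iff_unique_mem.mpr
        ⟨hu0, fun w hw => Finset.card_le_one.mp h8 w hw u0 hu0⟩)
    have hcardZ : (2 : ℤ) ≤ (ch r par c).card := by exact_mod_cast hcard
    by_cases hleaf : ∃ l ∈ ch r par c, ch r par l = ∅
    · obtain ⟨l, hl, hl2⟩ := hleaf
      have h1 := S.YY_leaf hc hl hl2 (by
        intro h
        rw [h, Finset.card_singleton] at hcard
        omega)
      have h2 : YY G r par key s l ≤ ∑ u ∈ ch r par c, YY G r par key s u :=
        Finset.single_le_sum (f := fun u => YY G r par key s u)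
          (fun _ _ => YY_nonneg G r par key s _) hl
      linarith
    · have hne : ∀ l ∈ ch r par c, ch r par l ≠ ∅ := fun l hl h => hleaf ⟨l, hl, h⟩
      have hs1 : ∀ u ∈ ch r par c, ((ch r par c).card : ℤ) - 1 ≤
          ∑ w ∈ (ch r par c).erase u, (s w : ℤ) := by
        intro u hu
        have h1 : ((ch r par c).erase u).card • (1 : ℤ) ≤
            ∑ w ∈ (ch r par c).erase u, (s w : ℤ) := by
          apply Finset.card_nsmul_le_sum
          intro w hw
          exact_mod_cast S.s_pos (hne w (Finset.mem_of_mem_erase hw))
        rw [Finset.card_erase_of_mem hu] at h1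
        have h2 : (((ch r par c).card - 1 : ℕ) : ℤ) = (ch r par c).card - 1 := by
          push_cast [Nat.cast_sub (show 1 ≤ (ch r par c).card by omega)]
          ring
        rw [nsmul_eq_mul, h2, mul_one] at h1
        exact h1
      have haa : ∀ u ∈ ch r par c, 5 ≤ aa G r par s u := by
        intro u hu
        rw [S.aa_child hc hu]
        have := hs1 u hu
        linarith
      have hY : ∀ u ∈ ch r par c, 2 ≤ YY G r par key s u := by
        intro u hu
        unfold YY PP
        rw [if_neg (hne u hu)]
        have := phi_5 (k := (s u : ℤ)) (haa u hu)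
        split_ifs <;> linarith
      by_cases hE : Eff r par key G (base r par) s c (par c)
      · have hee2 : ee G r par key s c = 1 := by unfold ee; rw [if_pos hE]
        rw [hee2]
        by_cases h3c : 3 ≤ (ch r par c).card
        · have h1 : (ch r par c).card • (2 : ℤ) ≤ ∑ u ∈ ch r par c, YY G r par key s u :=
            Finset.card_nsmul_le_sum _ _ _ hY
          rw [nsmul_eq_mul] at h1
          have : (3 : ℤ) ≤ (ch r par c).card := by exact_mod_cast h3c
          linarith
        · have hc2 : (ch r par c).card = 2 := by omega
          obtain ⟨y, hy, hmax, j, h1, h2, h3⟩ := S.aa_eff hc hch hE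
          have hsy : (2 : ℤ) ≤ s y := by
            unfold base at h1
            rw [if_neg (hne y hy)] at h1
            have : 2 ≤ s y := by omega
            exact_mod_cast this
          obtain ⟨y', hy'⟩ : ∃ y', (ch r par c).erase y = {y'} := by
            rw [← Finset.card_eq_one, Finset.card_erase_of_mem hy, hc2]
          have hy'm : y' ∈ ch r par c :=
            Finset.mem_of_mem_erase (by rw [hy']; exact Finset.mem_singleton_self y')
          have hsum : ∑ u ∈ ch r par c, YY G r par key s u =
              YY G r par key s y + YY G r par key s y' := by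
            rw [← Finset.add_sum_erase _ _ hy, hy', Finset.sum_singleton]
          rw [hsum]
          have hY1 := hY y hy
          have hY2 := hY y' hy'm
          by_cases hsc2 : s c ≤ 1
          · have := phi_le0 (a := aa G r par s c) (k := (s c : ℤ)) (by exact_mod_cast hsc2)
            linarith
          · have hsc3 : (2 : ℤ) ≤ s c := by
              have : 2 ≤ s c := by omega
              exact_mod_cast this
            have h7 : 7 ≤ aa G r par s y := by
              rw [S.aa_child hc hy]
              have := hs1 y hy
              linarith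
            have h8 : 4 ≤ YY G r par key s y := by
              unfold YY PP
              rw [if_neg (hne y hy)]
              have := phi_7 (k := (s y : ℤ)) h7 hsy
              split_ifs <;> linarith
            linarith
      · have hee2 : ee G r par key s c = 0 := by unfold ee; rw [if_neg hE]
        rw [hee2]
        have h1 : (ch r par c).card • (2 : ℤ) ≤ ∑ u ∈ ch r par c, YY G r par key s u :=
          Finset.card_nsmul_le_sum _ _ _ hY
        rw [nsmul_eq_mul] at h1
        linarith

end Setup

end Pool.Agent.V8H44.ML
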