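import Pool.Agent.V8H44.ML.Gr

/-!
The order of the tree edges and the effective edges.
-/

namespace Pool.Agent.V8H44.ML

open SimpleGraph Pool.Agent.Helper6W

variable {V : Type} [Fintype V] [DecidableEq V]

section

variable (r : V) (par : V → V)

lemma exists_key (dep : V → ℕ) : ∃ key : V → ℕ, Function.Injective key ∧
    (∀ u w, dep (par u) < dep (par w) → key u < key w) ∧
    (∀ u w, par u = par w → ch r par u = ∅ → ch r par w ≠ ∅ → key u < key w) := by
  set N := Fintype.card V
  let idx : V ≃ Fin N := Fintype.equivFin V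
  let key : V → ℕ := fun u => (2 * dep (par u) + (if ch r par u = ∅ then 0 else 1)) * N + idx u
  have hlt : ∀ u w, 2 * dep (par u) + (if ch r par u = ∅ then 0 else 1) <
      2 * dep (par w) + (if ch r par w = ∅ then 0 else 1) → key u < key w := by
    intro u w h
    have h1 : (2 * dep (par u) + (if ch r par u = ∅ then 0 else 1)) * N + N ≤
        (2 * dep (par w) + (if ch r par w = ∅ then 0 else 1)) * N := by
      rw [← Nat.succ_mul]
      exact Nat.mul_le_mul_right _ h
    have h2 := (idx u).isLt
    show (2 * dep (par u) + (if ch r par u = ∅ then 0 else 1)) * N + idx u <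
      (2 * dep (par w) + (if ch r par w = ∅ then 0 else 1)) * N + idx w
    omega
  refine ⟨key, ?_, ?_, ?_⟩
  · intro u v h
    have h1 : ((2 * dep (par u) + (if ch r par u = ∅ then 0 else 1)) * N + idx u) % N
        = ((2 * dep (par v) + (if ch r par v = ∅ then 0 else 1)) * N + idx v) % N :=
      congrArg (· % N) h
    rw [Nat.mul_add_mod_self_right, Nat.mul_add_mod_self_right, Nat.mod_eq_of_lt (idx u).isLt,
      Nat.mod_eq_of_lt (idx v).isLt] at h1
    exact idx.injective (Fin.ext h1)
  · intro u w h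
    apply hlt
    split_ifs <;> omega
  · intro u w h h1 h2
    apply hlt
    rw [if_pos h1, if_neg h2, h]
    omega

/-- Base value of a tree edge. -/
def base (v : V) : ℕ := if ch r par v = ∅ then 0 else 1

/-- All hypotheses on the tree and on the chosen values. -/
structure Setup (G : SimpleGraph V) [DecidableRel G.Adj] (r : V) (par : V → V) (dep : V → ℕ)
    (key : V → ℕ) (s : V → ℕ) : Prop where
  tree : RTree G r par dep
  opt : Opt G r par
  card : 3 ≤ Fintype.card V
  inj : Function.Injective key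
  k2 : ∀ u w, dep (par u) < dep (par w) → key u < key w
  k4 : ∀ u w, par u = par w → ch r par u = ∅ → ch r par w ≠ ∅ → key u < key w
  hs1 : ∀ u, base r par u ≤ s u
  hs3 : ∀ u j, base r par u ≤ j → j < s u → ∃ x y, G.Adj x y ∧ IsD r par key u x y ∧
        DD G r par (Function.update s u j) x = DD G r par (Function.update s u j) y

end

namespace Setup

variable {G : SimpleGraph V} [DecidableRel G.Adj] {r : V} {par : V → V} {dep key s : V → ℕ}
  (S : Setup G r par dep key s)

include S

lemma hself (v : V) (hv : v ≠ r) : par v ≠ v := by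
  intro h
  have := S.tree.dep v hv
  rw [h] at this
  omega

lemma dep_ch {v w : V} (h : w ∈ ch r par v) : dep w = dep v + 1 := by
  rw [mem_ch] at h
  rw [← h.2]
  exact S.tree.dep w h.1

lemma Var_sdiff {c : V} (hc : c ≠ r) :
    Var r par c \ Var r par (par c) = ch r par c := by
  ext u
  rw [Finset.mem_sdiff, mem_Var, mem_Var, mem_ch]
  have hd := S.tree.dep c hc
  constructor
  · rintro ⟨⟨h1, h2 | h2⟩, h3⟩
    · exact absurd ⟨h1, Or.inr (by rw [h2])⟩ h3
    · exact ⟨h1, h2⟩
  · rintro ⟨h1, h2⟩
    refine ⟨⟨h1, Or.inr h2⟩, ?_⟩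
    rintro ⟨-, h3 | h3⟩
    · have h4 := S.tree.dep u h1
      rw [h2, h3] at h4
      omega
    · rw [h2] at h3
      rw [← h3] at hd
      omega

lemma Var_sdiff' {c : V} (hc : c ≠ r) :
    Var r par (par c) \ Var r par c = (Var r par (par c)).erase c := by
  ext u
  rw [Finset.mem_sdiff, Finset.mem_erase, mem_Var, mem_Var]
  have hd := S.tree.dep c hc
  constructor
  · rintro ⟨⟨h1, h2⟩, h3⟩
    refine ⟨?_, h1, h2⟩
    rintro rfl
    exact h3 ⟨h1, Or.inl rfl⟩
  · rintro ⟨h0, h1, h2⟩
    refine ⟨⟨h1, h2⟩, ?_⟩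
    rintro ⟨-, h3 | h3⟩
    · exact h0 h3
    · have h4 := S.tree.dep u h1
      rw [h3] at h4
      rcases h2 with h2 | h2
      · rw [h2] at h4
        omega
      · rw [h3] at h2
        rw [← h2] at hd
        omega

lemma Rel_par {c : V} (hc : c ≠ r) :
    Rel r par c (par c) = ch r par c ∪ (Var r par (par c)).erase c := by
  unfold Rel
  rw [S.Var_sdiff hc, S.Var_sdiff' hc]

/-- Keys of children are larger. -/
lemma key_lt {c u w : V} (hc : c ≠ r) (hu : u ∈ (Var r par (par c)).erase c)
    (hw : w ∈ ch r par c) : key u < key w := by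
  apply S.k2
  rw [Finset.mem_erase, mem_Var] at hu
  rw [mem_ch] at hw
  rw [hw.2]
  have hd := S.tree.dep c hc
  obtain ⟨h0, h1, h2 | h2⟩ := hu
  · have h3 := S.tree.dep u h1
    rw [← h2] at hd
    omega
  · rw [h2]
    omega

/-- The last variable of the edge from a vertex with children to its parent. -/
lemma isD_par {c u : V} (hc : c ≠ r) (hch : ch r par c ≠ ∅) (h : IsD r par key u c (par c)) :
    u ∈ ch r par c ∧ ∀ w ∈ ch r par c, key w ≤ key u := by
  obtain ⟨h1, h2⟩ := h
  rw [S.Rel_par hc] at h1 h2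
  have h3 : ∀ w ∈ ch r par c, key w ≤ key u := fun w hw => h2 w (Finset.mem_union_left _ hw)
  refine ⟨?_, h3⟩
  rcases Finset.mem_union.mp h1 with h | h
  · exact h
  · obtain ⟨w, hw⟩ := Finset.nonempty_iff_ne_empty.mpr hch
    have := S.key_lt hc h hw
    have := h3 w hw
    omega

/-- Consequence of effectiveness of the edge from `c` to its parent, `c` having children. -/
lemma eff_par {c : V} (hc : c ≠ r) (hch : ch r par c ≠ ∅)
    (h : Eff r par key G (base r par) s c (par c)) :
    ∃ y ∈ ch r par c, (∀ w ∈ ch r par c, key w ≤ key y) ∧ ∃ j, base r par y ≤ j ∧ j < s y ∧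
      G.degree c + 2 * (∑ w ∈ (ch r par c).erase y, s w + j) =
        G.degree (par c) + 2 * ∑ w ∈ (Var r par (par c)).erase c, s w := by
  obtain ⟨y, hD, j, hj1, hj2, hj3⟩ := h
  obtain ⟨h1, h2⟩ := S.isD_par hc hch hD
  refine ⟨y, h1, h2, j, hj1, hj2, ?_⟩
  rw [DD_iff r par G S.hself, S.Var_sdiff hc, S.Var_sdiff' hc, ← Finset.add_sum_erase _ _ h1,
    Function.update_self] at hj3
  have e1 : ∑ w ∈ (ch r par c).erase y, Function.update s y j w
      = ∑ w ∈ (ch r par c).erase y, s w :=
    Finset.sum_congr rfl (fun w hw => by rw [Function.update_of_ne (Finset.ne_of_mem_erase hw)])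
  have e2 : ∑ w ∈ (Var r par (par c)).erase c, Function.update s y j w
      = ∑ w ∈ (Var r par (par c)).erase c, s w := by
    refine Finset.sum_congr rfl (fun w hw => ?_)
    rw [Function.update_of_ne]
    rintro rfl
    have := S.key_lt hc hw h1
    omega
  rw [e1, e2] at hj3
  omega

/-- If the last child is a leaf, all children are leaves. -/
lemma last_leaf {c y w : V} (hy : y ∈ ch r par c) (hw : w ∈ ch r par c)
    (hmax : key w ≤ key y) (hw2 : ch r par w ≠ ∅) : ch r par y ≠ ∅ := by
  intro h
  rw [mem_ch] at hy hw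
  have := S.k4 y w (hy.2.trans hw.2.symm) h hw2
  omega

/-- Effectiveness of the edge of a leaf. -/
lemma eff_leaf {l : V} (hl : l ≠ r) (hch : ch r par l = ∅)
    (h : Eff r par key G (base r par) s l (par l)) :
    ∃ u ∈ (Var r par (par l)).erase l, ∃ j, base r par u ≤ j ∧ j < s u ∧
      G.degree l = G.degree (par l) +
        2 * ∑ w ∈ (Var r par (par l)).erase l, Function.update s u j w := by
  obtain ⟨u, hD, j, hj1, hj2, hj3⟩ := h
  have h1 := hD.1
  rw [S.Rel_par hl, hch, Finset.empty_union] at h1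
  refine ⟨u, h1, j, hj1, hj2, ?_⟩
  rw [DD_iff r par G S.hself, S.Var_sdiff hl, S.Var_sdiff' hl, hch, Finset.sum_empty] at hj3
  omega

end Setup

end Pool.Agent.V8H44.ML
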