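import Pool.Agent.V8H44.ML.Loc

/-!
The total.
-/

namespace Pool.Agent.V8H44.ML

open SimpleGraph Pool.Agent.Helper6W

variable {V : Type} [Fintype V] [DecidableEq V]

namespace Setup

variable {G : SimpleGraph V} [DecidableRel G.Adj] {r : V} {par : V → V} {dep key s : V → ℕ}
  (S : Setup G r par dep key s)

include S

/-- The number of skipped values is at most the number of effective edges. -/
lemma sum_extra : ∑ u ∈ Finset.univ.erase r, (s u : ℤ) ≤
    ∑ u ∈ Finset.univ.erase r, (base r par u : ℤ) + (HG G r par).edgeFinset.card +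
      ∑ u ∈ Finset.univ.erase r, ee G r par key s u := by
  classical
  set F : Finset V := (Finset.univ.erase r).filter
    (fun v => Eff r par key G (base r par) s v (par v)) with hF
  set EE : Finset (Sym2 V) := (HG G r par).edgeFinset ∪ F.image (fun v => s(v, par v)) with hEE
  let A : V → Finset (Sym2 V) := fun u => EE.filter
    (fun e => ∃ x y, e = s(x, y) ∧ IsD r par key u x y)
  have h1 : ∀ u, s u - base r par u ≤ (A u).card := by
    intro u
    refine extra_le r par key G S.hself (S.hs3 u) (A u) ?_
    intro x y hxy hD hE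
    refine Finset.mem_filter.mpr ⟨?_, x, y, rfl, hD⟩
    rw [hEE, Finset.mem_union, mem_edgeFinset, mem_edgeSet]
    by_cases h : y ≠ r ∧ par y = x
    · right
      rw [Finset.mem_image]
      refine ⟨y, ?_, ?_⟩
      · rw [hF, Finset.mem_filter, Finset.mem_erase]
        refine ⟨⟨h.1, Finset.mem_univ _⟩, ?_⟩
        rw [h.2]
        exact (Eff_comm r par key G).mp hE
      · show s(y, par y) = s(x, y)
        rw [h.2, Sym2.eq_swap]
    · by_cases h2 : x ≠ r ∧ par x = y
      · right
        rw [Finset.mem_image]
        refine ⟨x, ?_, ?_⟩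
        · rw [hF, Finset.mem_filter, Finset.mem_erase]
          refine ⟨⟨h2.1, Finset.mem_univ _⟩, ?_⟩
          rw [h2.2]
          exact hE
        · show s(x, par x) = s(x, y)
          rw [h2.2]
      · exact Or.inl ⟨hxy, h, h2⟩
  have h2 : ∑ u ∈ Finset.univ.erase r, (A u).card ≤ EE.card := by
    rw [← Finset.card_biUnion]
    · refine Finset.card_le_card ?_
      rw [Finset.biUnion_subset]
      exact fun u _ => Finset.filter_subset _ _
    · intro u _ v _ huv
      rw [Function.onFun_apply] 
      rw [Finset.disjoint_left]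
      intro e he he'
      obtain ⟨-, x, y, h3, h4⟩ := Finset.mem_filter.mp he
      obtain ⟨-, x', y', h5, h6⟩ := Finset.mem_filter.mp he'
      rw [h3, Sym2.eq_iff] at h5
      rcases h5 with ⟨e1, e2⟩ | ⟨e1, e2⟩
      · rw [← e1, ← e2] at h6
        exact huv (IsD_unique r par key S.inj h4 h6)
      · rw [← e1, ← e2] at h6
        exact huv (IsD_unique r par key S.inj h4 ((IsD_comm r par key).mp h6))
  have h3 : EE.card ≤ (HG G r par).edgeFinset.card + F.card :=
    (Finset.card_union_le _ _).trans (Nat.add_le_add_left Finset.card_image_le _)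
  have h4 : (F.card : ℤ) = ∑ u ∈ Finset.univ.erase r, ee G r par key s u := by
    unfold ee
    rw [hF, Finset.card_filter]
    push_cast
    rfl
  have h5 : ∀ u ∈ (Finset.univ.erase r : Finset V), (s u : ℤ) ≤ base r par u + (A u).card := by
    intro u _
    have := h1 u
    have : s u ≤ base r par u + (A u).card := by omega
    exact_mod_cast this
  have h6 := Finset.sum_le_sum h5
  rw [Finset.sum_add_distrib] at h6
  have h7 : (∑ u ∈ Finset.univ.erase r, ((A u).card : ℤ)) ≤ EE.card := by exact_mod_cast h2
  have h8 : (EE.card : ℤ) ≤ (HG G r par).edgeFinset.card + F.card := by exact_mod_cast h3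
  linarith

/-- The root inequality. -/
lemma loc_root : 0 ≤ ∑ u ∈ ch r par r, YY G r par key s u + sh G r par r := by
  have h1 : 0 ≤ ∑ u ∈ ch r par r, YY G r par key s u :=
    Finset.sum_nonneg (fun u _ => YY_nonneg G r par key s u)
  have h2 := sh_nonneg G r par r
  linarith

lemma total : 4 * ∑ u ∈ Finset.univ.erase r, (s u : ℤ) ≤ 6 * G.edgeFinset.card := by
  classical
  have h1 := S.sum_extra
  have h2 := S.edges_eq
  have h3 := S.sum_sh
  -- sum of the local inequalities
  have h4 : 0 ≤ ∑ c, (∑ u ∈ ch r par c, YY G r par key s u +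
      (if c = r then sh G r par r else if ch r par c = ∅ then 0 else
        sh G r par c - 4 * ee G r par key s c - PP G r par key s c)) := by
    refine Finset.sum_nonneg (fun c _ => ?_)
    by_cases hc : c = r
    · rw [if_pos hc, hc]
      exact S.loc_root
    · rw [if_neg hc]
      by_cases hch : ch r par c = ∅
      · rw [if_pos hch, hch]
        simp
      · rw [if_neg hch]
        have := S.loc hc hch
        linarith
  rw [Finset.sum_add_distrib, S.sum_ch, ← Finset.add_sum_erase (Finset.univ : Finset V)
    (fun c => if c = r then sh G r par r else if ch r par c = ∅ then 0 else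
        sh G r par c - 4 * ee G r par key s c - PP G r par key s c) (Finset.mem_univ r)] at h4
  have h5 : ∑ c ∈ Finset.univ.erase r, (if c = r then sh G r par r else
      if ch r par c = ∅ then 0 else
        sh G r par c - 4 * ee G r par key s c - PP G r par key s c) =
      ∑ c ∈ Finset.univ.erase r, (if ch r par c = ∅ then 0 else
        sh G r par c - 4 * ee G r par key s c - PP G r par key s c) :=
    Finset.sum_congr rfl (fun c hc => if_neg (Finset.ne_of_mem_erase hc))
  rw [h5] at h4
  have h6 : ∑ u ∈ Finset.univ.erase r, YY G r par key s u +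
      ∑ c ∈ Finset.univ.erase r, (if ch r par c = ∅ then 0 else
        sh G r par c - 4 * ee G r par key s c - PP G r par key s c) =
      ∑ u ∈ Finset.univ.erase r, (6 - 4 * (base r par u : ℤ) - 4 * ee G r par key s u +
        sh G r par u) := by
    rw [← Finset.sum_add_distrib]
    refine Finset.sum_congr rfl (fun u _ => ?_)
    unfold YY base
    by_cases hu : ch r par u = ∅
    · rw [if_pos hu, if_pos hu, if_pos hu]
      push_cast
      ring
    · rw [if_neg hu, if_neg hu, if_neg hu]
      push_cast
      ring
  have h7 : ∑ u ∈ Finset.univ.erase r, (6 - 4 * (base r par u : ℤ) - 4 * ee G r par key s u +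
        sh G r par u) = 6 * ((Finset.univ.erase r : Finset V).card : ℤ) -
        4 * ∑ u ∈ Finset.univ.erase r, (base r par u : ℤ) -
        4 * ∑ u ∈ Finset.univ.erase r, ee G r par key s u +
        ∑ u ∈ Finset.univ.erase r, sh G r par u := by
    rw [Finset.sum_add_distrib, Finset.sum_sub_distrib, Finset.sum_sub_distrib,
      ← Finset.mul_sum, ← Finset.mul_sum, Finset.sum_const, nsmul_eq_mul]
    ring
  have h8 : ∑ v, sh G r par v = sh G r par r + ∑ u ∈ Finset.univ.erase r, sh G r par u :=
    (Finset.add_sum_erase _ _ (Finset.mem_univ r)).symm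
  simp only [if_true] at h4
  linarith

end Setup

section

variable (G : SimpleGraph V) [DecidableRel G.Adj] (r : V) (par : V → V) (dep : V → ℕ)

/-- All vertices are close to the root if the root has a single child which is a leaf. -/
lemma two_of_single (ht : RTree G r par dep) {x : V} (h1 : ch r par r = {x})
    (h2 : ch r par x = ∅) : ∀ v, v = r ∨ v = x := by
  have key : ∀ n v, dep v ≤ n → v = r ∨ v = x := by
    intro n
    induction n with
    | zero =>
      intro v hv
      by_contra h
      have h3 : v ≠ r := fun e => h (Or.inl e)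
      have := ht.dep v h3
      omega
    | succ n ih =>
      intro v hv
      by_contra h
      have h3 : v ≠ r := fun e => h (Or.inl e)
      have h4 := ht.dep v h3
      rcases ih (par v) (by omega) with h5 | h5
      · have : v ∈ ch r par r := (mem_ch r par).mpr ⟨h3, h5⟩
        rw [h1, Finset.mem_singleton] at this
        exact h (Or.inr this)
      · have : v ∈ ch r par x := (mem_ch r par).mpr ⟨h3, h5⟩
        rw [h2] at this
        exact absurd this (Finset.notMem_empty _)
  exact fun v => key _ v le_rfl

/-- Every edge has a relevant variable. -/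
lemma rel_ne (ht : RTree G r par dep) (hcard : 3 ≤ Fintype.card V) {x y : V}
    (hxy : G.Adj x y) : (Rel r par x y).Nonempty := by
  rw [Finset.nonempty_iff_ne_empty]
  intro h0
  have hV : ∀ w, w ∈ Var r par x ↔ w ∈ Var r par y := by
    intro w
    unfold Rel at h0
    rw [Finset.union_eq_empty, Finset.sdiff_eq_empty_iff_subset,
      Finset.sdiff_eq_empty_iff_subset] at h0
    exact ⟨fun h => h0.1 h, fun h => h0.2 h⟩
  have main : ∀ x y : V, G.Adj x y → (∀ w, w ∈ Var r par x ↔ w ∈ Var r par y) → x ≠ r → False := by
    intro x y hxy hV hx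
    have h1 := (hV x).mp ((mem_Var r par).mpr ⟨hx, Or.inl rfl⟩)
    rw [mem_Var] at h1
    have h2 : par x = y := by
      rcases h1.2 with h | h
      · exact absurd h hxy.ne
      · exact h
    have hdx := ht.dep x hx
    have hy : y = r := by
      by_contra hy
      have h3 := (hV y).mpr ((mem_Var r par).mpr ⟨hy, Or.inl rfl⟩)
      rw [mem_Var] at h3
      rcases h3.2 with h | h
      · exact hxy.ne h.symm
      · have := ht.dep y hy
        rw [h2] at hdx
        rw [h] at this
        omega
    subst hy
    have hchx : ch y par x = ∅ := by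
      rw [Finset.eq_empty_iff_forall_notMem]
      intro w hw
      have hw' := hw
      rw [mem_ch] at hw'
      have h3 := (hV w).mp ((mem_Var y par).mpr ⟨hw'.1, Or.inr hw'.2⟩)
      rw [mem_Var] at h3
      rcases h3.2 with h | h
      · exact hw'.1 h
      · exact hxy.ne (hw'.2.symm.trans h)
    have hchr : ch y par y = {x} := by
      ext w
      rw [mem_ch, Finset.mem_singleton]
      constructor
      · rintro ⟨h3, h4⟩
        have h5 := (hV w).mpr ((mem_Var y par).mpr ⟨h3, Or.inr h4⟩)
        rw [mem_Var] at h5
        rcases h5.2 with h | h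
        · exact h
        · have : w ∈ ch y par x := (mem_ch y par).mpr ⟨h3, h⟩
          rw [hchx] at this
          exact absurd this (Finset.notMem_empty _)
      · rintro rfl
        exact ⟨hx, h2⟩
    have h6 := two_of_single G y par dep ht hchr hchx
    have h7 : (Finset.univ : Finset V) ⊆ {y, x} := by
      intro v _
      rw [Finset.mem_insert, Finset.mem_singleton]
      exact h6 v
    have h8 := Finset.card_le_card h7
    have h9 := Finset.card_le_two (a := y) (b := x)
    rw [Finset.card_univ] at h8
    omega
  by_cases hx : x = r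
  · refine main y x hxy.symm (fun w => (hV w).symm) ?_
    rintro rfl
    exact hxy.ne hx
  · exact main x y hxy hV hx

/-- Optimal values. -/
theorem exists_values (ht : RTree G r par dep) (ho : Opt G r par) (hcard : 3 ≤ Fintype.card V) :
    ∃ s : V → ℕ, (∀ v, v ≠ r → ¬ Leaf r par v → 1 ≤ s v) ∧
      (∀ x y, G.Adj x y → DD G r par s x ≠ DD G r par s y) ∧
      2 * ∑ u ∈ Finset.univ.erase r, s u ≤ 3 * G.edgeFinset.card := by
  obtain ⟨key, hinj, k2, k4⟩ := exists_key r par dep
  have hself : ∀ v, v ≠ r → par v ≠ v := by
    intro v hv h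
    have := ht.dep v hv
    rw [h] at this
    omega
  obtain ⟨s, hs1, hs2, hs3⟩ := greedy' r par key G hself hinj (base r par)
  have S : Setup G r par dep key s :=
    { tree := ht, opt := ho, card := hcard, inj := hinj, k2 := k2, k4 := k4, hs1 := hs1,
      hs3 := hs3 }
  refine ⟨s, ?_, ?_, ?_⟩
  · intro v hv hl
    refine S.s_pos ?_
    intro h
    exact hl ⟨hv, h⟩
  · intro x y hxy
    obtain ⟨u, hu, hmax⟩ := Finset.exists_max_image _ key (rel_ne G r par dep ht hcard hxy)
    exact hs2 u x y hxy ⟨hu, hmax⟩
  · have h1 := S.total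
    have h2 : (((∑ u ∈ Finset.univ.erase r, s u : ℕ)) : ℤ) =
        ∑ u ∈ Finset.univ.erase r, (s u : ℤ) := by push_cast; rfl
    rw [← h2] at h1
    have h3 : 4 * (∑ u ∈ Finset.univ.erase r, s u) ≤ 6 * G.edgeFinset.card := by exact_mod_cast h1
    omega

end

end Pool.Agent.V8H44.ML
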